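import Pool.Agent.V5helper56.CD.Tors

/-!
# The dichotomy for all finitely generated modules over finitely generated rings
-/

set_option autoImplicit false

open Polynomial

noncomputable section

namespace Pool.Agent.V5helper56.CD

open Pool.Agent.V5helper56.CC (os Dich dich_int poly_phase)
open Pool.Agent.TH784.AA (Copr irr_copr)

variable {R : Type*} [CommRing R] [Algebra.FiniteType ℤ R] {D m : ℕ}

/-- **coprimary modules** -/
theorem copr_all {W : Type*} [AddCommGroup W] [Module R W] (hW : Copr R W)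
    (t : Fin D → Rˣ) (P : Fin D → Fin m → ℤ[X]) (χ : Fin m → W) :
    ∃ q : ℕ, 1 ≤ q ∧ DichF (os t P χ) q := by
  by_cases htf : ∀ (z : ℤ) (x : W), z ≠ 0 → z • x = 0 → x = 0
  · obtain ⟨q, hq, h⟩ := dich_int htf t P χ
    exact ⟨q, hq, Dich.toF h⟩
  · push Not at htf
    obtain ⟨z, x, hz, hzx, hx⟩ := htf
    rcases hW.dich ((z : ℤ) : R) with ⟨k, hk⟩ | h
    · refine copr_tors hW (B := (z ^ k).natAbs) (Int.natAbs_pos.2 (pow_ne_zero k hz)) (fun w => ?_)
        t P χ
      rw [Module.mem_annihilator] at hk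
      have h1 := hk w
      rw [← Int.cast_pow, Int.cast_smul_eq_zsmul] at h1
      rcases Int.natAbs_eq (z ^ k) with h2 | h2
      · rw [h2, natCast_zsmul] at h1
        exact h1
      · rw [h2, neg_smul, natCast_zsmul, neg_eq_zero] at h1
        exact h1
    · exact absurd (h x (by rw [Int.cast_smul_eq_zsmul]; exact hzx)) hx

omit [Algebra.FiniteType ℤ R] in
theorem mkQ_os' {N : Type*} [AddCommGroup N] [Module R N] (L : Submodule R N) (t : Fin D → Rˣ)
    (P : Fin D → Fin m → ℤ[X]) (χ : Fin m → N) (n : ℤ) :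
    L.mkQ (os t P χ n) = os t P (fun j => L.mkQ (χ j)) n := by
  rw [os, os, map_sum]
  exact Finset.sum_congr rfl fun j _ => map_smul _ _ _

/-- **The dichotomy.** -/
theorem dich_all {N : Type*} [AddCommGroup N] [Module R N] [Module.Finite R N]
    (t : Fin D → Rˣ) (P : Fin D → Fin m → ℤ[X]) (χ : Fin m → N) :
    ∃ q : ℕ, 1 ≤ q ∧ DichF (os t P χ) q := by
  classical
  have hnr : IsNoetherianRing R := Algebra.FiniteType.isNoetherianRing ℤ R
  have hnN : IsNoetherian R N := isNoetherian_of_isNoetherianRing_of_finite R N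
  have key : ∀ L : Submodule R N, ∃ q : ℕ, 1 ≤ q ∧ DichF (fun n => L.mkQ (os t P χ n)) q := by
    intro L
    induction L using WellFoundedGT.induction with
    | ind L ih =>
      by_cases htop : L = ⊤
      · refine ⟨1, le_rfl, fun r => Or.inl fun n => ?_⟩
        subst htop
        have hss : Subsingleton (N ⧸ (⊤ : Submodule R N)) := Submodule.Quotient.subsingleton_iff.2 rfl
        exact Subsingleton.elim _ _
      by_cases hirr : InfIrred L
      · obtain ⟨q, hq, h⟩ := copr_all (irr_copr hirr) t P (fun j => L.mkQ (χ j))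
        refine ⟨q, hq, ?_⟩
        have e : (fun n => L.mkQ (os t P χ n)) = os t P fun j => L.mkQ (χ j) := by
          funext n
          exact mkQ_os' L t P χ n
        rw [e]
        exact h
      · have hex : ∃ L₁ L₂ : Submodule R N, L₁ ⊓ L₂ = L ∧ L₁ ≠ L ∧ L₂ ≠ L := by
          by_contra hcon
          push Not at hcon
          apply hirr
          refine ⟨fun hmax => htop (isMax_iff_eq_top.1 hmax), fun b c hbc => ?_⟩
          by_cases hb : b = L
          · exact Or.inl hb
          · exact Or.inr (hcon b c hbc hb)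
        obtain ⟨L₁, L₂, h12, h1, h2⟩ := hex
        have hle1 : L ≤ L₁ := by
          rw [← h12]
          exact inf_le_left
        have hle2 : L ≤ L₂ := by
          rw [← h12]
          exact inf_le_right
        obtain ⟨q₁, hq₁, d₁⟩ := ih L₁ (lt_of_le_of_ne hle1 (Ne.symm h1))
        obtain ⟨q₂, hq₂, d₂⟩ := ih L₂ (lt_of_le_of_ne hle2 (Ne.symm h2))
        have d₁' := d₁.mul hq₂
        have d₂' := d₂.mul hq₁
        rw [mul_comm q₂ q₁] at d₂'
        refine ⟨q₁ * q₂, Nat.mul_pos hq₁ hq₂, fun r => ?_⟩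
        have hfac : ∀ {L' : Submodule R N}, L ≤ L' → ∀ x y : N, L.mkQ x = L.mkQ y →
            L'.mkQ x = L'.mkQ y := by
          intro L' hL' x y hxy
          rw [Submodule.mkQ_apply, Submodule.mkQ_apply, Submodule.Quotient.eq] at hxy ⊢
          exact hL' hxy
        have hbd : ∀ {L' : Submodule R N}, L ≤ L' →
            Few (fun n : ℕ => L'.mkQ (os t P χ ((r + q₁ * q₂ * n : ℕ) : ℤ))) →
            Few (fun n : ℕ => L.mkQ (os t P χ ((r + q₁ * q₂ * n : ℕ) : ℤ))) := fun hL' hK =>
          hK.of_map fun n n' hnn => hfac hL' _ _ hnn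
        rcases d₁' r with c₁ | b₁
        · rcases d₂' r with c₂ | b₂
          · left
            intro n
            have e1 := c₁ n
            have e2 := c₂ n
            simp only [Submodule.mkQ_apply, Submodule.Quotient.eq] at e1 e2 ⊢
            rw [← h12]
            exact ⟨e1, e2⟩
          · exact Or.inr (hbd hle2 b₂)
        · exact Or.inr (hbd hle1 b₁)
  obtain ⟨q, hq, h⟩ := key ⊥
  refine ⟨q, hq, fun r => ?_⟩
  have hinj : Function.Injective (⊥ : Submodule R N).mkQ := by
    rw [← LinearMap.ker_eq_bot, Submodule.ker_mkQ]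
  rcases h r with h1 | h1
  · exact Or.inl fun n => hinj (h1 n)
  · exact Or.inr (h1.of_map fun n n' hnn => congrArg _ hnn)

/-- **Actions of `ℤ^D` on an abelian group.** -/
theorem seq_dichF {Q : Type*} [AddCommGroup Q] (ρ : Multiplicative (Fin D → ℤ) →* Module.End ℤ Q)
    (K : AddSubgroup Q) (hK : ∀ g, ∀ c ∈ K, ρ g c = c)
    (P : Fin D → Fin m → ℤ[X]) (χ : Fin m → Q) (U : ℤ → Q)
    (hU : ∀ n, U n = ∑ j, ρ (Multiplicative.ofAdd fun i => (P i j).eval n) (χ j)) :
    ∃ q : ℕ, 1 ≤ q ∧ ∀ r : ℕ,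
      (∃ (B : ℕ) (c : ℕ → Q), (∀ k, c k ∈ K) ∧ ∀ n : ℕ,
        U ((r + q * n : ℕ) : ℤ) - U (r : ℤ) = ∑ k ∈ Finset.range B, (n.choose k) • c k) ∨
      ∃ r₀ M : ℕ, ∀ (w : Q) (N : ℕ), 1 ≤ N → ∀ s ⊆ Finset.range N,
        (∀ n ∈ s, U ((r + q * n : ℕ) : ℤ) - w ∈ K) → s.card ^ (2 ^ r₀) ≤ M * N ^ (2 ^ r₀ - 1) := by
  classical
  set G := Multiplicative (Fin D → ℤ) with hG
  let R := MonoidAlgebra ℤ G
  have hfg : Monoid.FG G := by
    have h1 : AddGroup.FG (Fin D → ℤ) := Module.Finite.iff_addGroup_fg.1 inferInstance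
    have h2 : AddMonoid.FG (Fin D → ℤ) := AddGroup.fg_iff_addMonoid_fg.1 h1
    infer_instance
  have hft : Algebra.FiniteType ℤ (MonoidAlgebra ℤ G) := MonoidAlgebra.finiteType_of_fg
  have hnoeth : IsNoetherianRing R := Algebra.FiniteType.isNoetherianRing ℤ (MonoidAlgebra ℤ G)
  have hft' : @Algebra.FiniteType ℤ R _ _ (Ring.toIntAlgebra R) := by
    have h0 : (algebraMap ℤ (MonoidAlgebra ℤ G)).FiniteType := RingHom.finiteType_algebraMap.2 hft
    have e : algebraMap ℤ (MonoidAlgebra ℤ G) = Int.castRingHom R := RingHom.ext_int _ _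
    rw [e] at h0
    exact (@RingHom.finiteType_algebraMap ℤ R _ _ (Ring.toIntAlgebra R)).1 h0
  let Φ : R →ₐ[ℤ] Module.End ℤ Q := MonoidAlgebra.lift ℤ (Module.End ℤ Q) G ρ
  letI modQ : Module R Q := Module.compHom Q Φ.toRingHom
  have hof : ∀ (g : G) (x : Q), (MonoidAlgebra.of ℤ G g : R) • x = ρ g x := by
    intro g x
    show Φ (MonoidAlgebra.of ℤ G g) x = _
    rw [MonoidAlgebra.lift_of]
  have hsub : ∀ (S : AddSubgroup Q), (∀ g, ∀ a ∈ S, ρ g a ∈ S) → ∀ (z : R), ∀ a ∈ S,
      z • a ∈ S := by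
    intro S hS z a ha
    induction z using MonoidAlgebra.induction_on with
    | of g =>
      rw [hof]
      exact hS g a ha
    | add z z' h h' =>
      rw [add_smul]
      exact S.add_mem h h'
    | smul c z h =>
      rw [smul_assoc]
      exact S.zsmul_mem h c
  let KS : Submodule R Q :=
    { K with smul_mem' := fun z a ha => hsub K (fun g c hc => by rw [hK g c hc]; exact hc) z a ha }
  have hKS : ∀ x, x ∈ KS ↔ x ∈ K := fun x => Iff.rfl
  -- the units
  let F : G →* Rˣ := (Units.map (MonoidAlgebra.of ℤ G)).comp (toUnits (G := G)).toMonoidHom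
  have hF : ∀ (g : G) (x : Q), ((F g : Rˣ) : R) • x = ρ g x := fun g x => hof g x
  let t : Fin D → Rˣ := fun i => F (Multiplicative.ofAdd (Pi.single i 1))
  have ht : ∀ a : Fin D → ℤ, (List.ofFn fun i => t i ^ a i).prod = F (Multiplicative.ofAdd a) := by
    intro a
    have h1 : (List.ofFn fun i => (Multiplicative.ofAdd (Pi.single i (1 : ℤ)) : G) ^ a i).prod =
        Multiplicative.ofAdd a := by
      rw [List.prod_ofFn]
      apply Multiplicative.toAdd.injective
      rw [toAdd_prod]
      simp only [toAdd_zpow, toAdd_ofAdd]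
      funext k
      rw [Finset.sum_apply, Finset.sum_eq_single k]
      · simp
      · intro b _ hb
        simp [Pi.single_apply, Ne.symm hb]
      · intro h
        exact absurd (Finset.mem_univ k) h
    rw [← h1, map_list_prod, List.map_ofFn]
    congr 2
    funext i
    simp only [Function.comp_apply, map_zpow, t]
  have hUos : ∀ n, U n = os t P χ n := by
    intro n
    rw [hU, os]
    apply Finset.sum_congr rfl
    intro j _
    rw [ht, hF]
  -- the quotient
  let N' : Submodule R (Q ⧸ KS) := Submodule.span R (Set.range fun j => KS.mkQ (χ j))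
  have hN'fin : Module.Finite R N' := Module.Finite.span_of_finite R (Set.finite_range _)
  let χ' : Fin m → N' := fun j => ⟨KS.mkQ (χ j), Submodule.subset_span ⟨j, rfl⟩⟩
  obtain ⟨q, hq, hd⟩ := @dich_all R _ hft' D m N' _ _ hN'fin t P χ'
  have hos' : ∀ n, ((os t P χ' n : N') : Q ⧸ KS) = KS.mkQ (U n) := by
    intro n
    rw [hUos, os, os, Submodule.coe_sum, map_sum]
    apply Finset.sum_congr rfl
    intro j _
    rw [map_smul]
    rfl
  have heq : ∀ n n', os t P χ' n = os t P χ' n' ↔ U n - U n' ∈ K := by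
    intro n n'
    rw [← hKS, ← Submodule.Quotient.eq, ← Submodule.mkQ_apply, ← Submodule.mkQ_apply, ← hos',
      ← hos']
    exact Subtype.ext_iff
  refine ⟨q, hq, fun r => ?_⟩
  rcases hd r with h1 | ⟨r₀, M, hM⟩
  · left
    have h2 : ∀ n : ℕ, os t P χ ((r + q * n : ℕ) : ℤ) - os t P χ (r : ℤ) ∈ KS := by
      intro n
      rw [← hUos, ← hUos]
      exact (heq _ _).1 (h1 n)
    obtain ⟨B, c, hc, h3⟩ := poly_phase t P χ KS (fun i c hc => by
      rw [hF]
      exact hK _ c hc) r q h2
    refine ⟨B, c, hc, fun n => ?_⟩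
    rw [hUos, hUos]
    exact h3 n
  · right
    refine ⟨r₀, M, fun w N hN s hsN hs => ?_⟩
    rcases s.eq_empty_or_nonempty with h0 | ⟨n₁, hn₁⟩
    · rw [h0, Finset.card_empty, zero_pow (by positivity)]
      exact Nat.zero_le _
    · refine hM (os t P χ' ((r + q * n₁ : ℕ) : ℤ)) N hN s hsN fun n hn => ?_
      simp only
      rw [heq]
      have h4 := K.sub_mem (hs n hn) (hs n₁ hn₁)
      rwa [sub_sub_sub_cancel_right] at h4

end Pool.Agent.V5helper56.CD
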