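import Pool.Agent.V5helper56.CD.All
import Pool.Agent.V5helper56.CC.XTop

/-!
# Averages of products of characters under commuting affine maps of a compact abelian group
-/

set_option autoImplicit false

open Filter Topology MeasureTheory Polynomial
open scoped ComplexConjugate

noncomputable section

namespace Pool.Agent.V5helper56.CD

open Pool.Agent.TH784.AA (BB pbk KK mem_KK pbk_KK IsAC IsAff int_ac fb norm_fb fb_add isAff_prod
  fb_meas fb_orth ae_zero FewB cnt vol bxs mem_bxs bxc_eq)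
open Pool.Agent.V5helper56.CC (act AC phase_conv)
open Pool.Agent.W761.Box (bxc)

universe u

theorem real_root {x K N E : ℕ} (hE : 1 ≤ E) (hN : 1 ≤ N) (h : x ^ E ≤ K * N ^ (E - 1)) :
    (x : ℝ) ≤ (K : ℝ) ^ (1 / (E : ℝ)) * ((N : ℝ) * (N : ℝ) ^ (-(1 / (E : ℝ)))) := by
  have hE0 : (E : ℝ) ≠ 0 := by
    have : (1 : ℝ) ≤ E := by exact_mod_cast hE
    linarith
  have hN0 : (0 : ℝ) < N := by exact_mod_cast hN
  refine le_of_pow_le_pow_left₀ (n := E) (by omega) (by positivity) ?_
  have h1 : ((K : ℝ) ^ (1 / (E : ℝ))) ^ E = K := by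
    rw [← Real.rpow_natCast, ← Real.rpow_mul (Nat.cast_nonneg K), one_div_mul_cancel hE0,
      Real.rpow_one]
  have h2 : ((N : ℝ) ^ (-(1 / (E : ℝ)))) ^ E = (N : ℝ)⁻¹ := by
    rw [← Real.rpow_natCast, ← Real.rpow_mul hN0.le, neg_mul, one_div_mul_cancel hE0,
      Real.rpow_neg_one]
  have h3 : (N : ℝ) ^ E = N ^ (E - 1) * N := by
    rw [← pow_succ]
    congr 1
    omega
  rw [mul_pow, mul_pow, h1, h2, h3, mul_inv_cancel_right₀ hN0.ne']
  exact_mod_cast h

section

variable {X : Type u} [CommGroup X] [TopologicalSpace X] [IsTopologicalGroup X] [CompactSpace X]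
  [MeasurableSpace X] [BorelSpace X] {μ : Measure X} [IsProbabilityMeasure μ]
  [μ.IsMulLeftInvariant]

theorem ae_zeroF (U : ℕ → BB X) (hac : ∀ n, IsAC (U n).toMul) {r₀ K : ℕ}
    (hK : ∀ (w : BB X) (N : ℕ), 1 ≤ N → ∀ s ⊆ Finset.range N, (∀ n ∈ s, U n - w ∈ KK X) →
      s.card ^ (2 ^ r₀) ≤ K * N ^ (2 ^ r₀ - 1)) :
    ∀ᵐ x ∂μ, Tendsto (fun N : ℕ => (N : ℂ)⁻¹ *
      ∑ n ∈ Finset.range N, fb (U n) x) atTop (𝓝 0) := by
  classical
  have hE : 1 ≤ 2 ^ r₀ := Nat.one_le_two_pow
  have key := ae_zero (X := X) (μ := μ) (k := 1) {0} (Finset.singleton_nonempty 0)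
    (fun n : Fin 1 → ℕ => QuotientAddGroup.mk' (KK X) (U (n 0)))
    (fun n x => fb (U (n 0)) x) (fun n => fb_meas (hac _)) (fun n x => (norm_fb _ _).le)
    (fun i j h => fb_orth (hac _) (hac _) h)
    (fun l hl => absurd (Finset.mem_singleton.2 (Subsingleton.elim l 0)) hl) (by
      intro l _
      refine ⟨Set.univ, (K : ℝ) ^ (1 / ((2 ^ r₀ : ℕ) : ℝ)), 1 / ((2 ^ r₀ : ℕ) : ℝ), by positivity,
        by positivity, fun c N hN => ?_, fun N hN => ?_⟩
      · obtain ⟨w, rfl⟩ := QuotientAddGroup.mk'_surjective (KK X) c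
        have hv : vol N = (N 0 : ℝ) := by
          rw [vol, Fin.prod_univ_one]
        have hl : l = 0 := Subsingleton.elim _ _
        rw [hv, hl]
        unfold cnt
        set S := (bxs N).filter fun n => n ∈ Set.univ ∧
          QuotientAddGroup.mk' (KK X) (U (n 0)) = QuotientAddGroup.mk' (KK X) w with hS
        have hcard : (S.image fun n => n 0).card = S.card := by
          apply Finset.card_image_of_injective
          intro a b hab
          funext i
          rw [Subsingleton.elim i 0]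
          exact hab
        have h1 := hK w (N 0) (hN 0) (S.image fun n => n 0) (by
          intro a ha
          obtain ⟨n, hn, rfl⟩ := Finset.mem_image.1 ha
          rw [hS, Finset.mem_filter] at hn
          exact Finset.mem_range.2 (mem_bxs.1 hn.1 0)) (by
          intro a ha
          obtain ⟨n, hn, rfl⟩ := Finset.mem_image.1 ha
          rw [hS, Finset.mem_filter] at hn
          exact Pool.Agent.TH784.AA.mk_eq_mk hn.2.2)
        rw [hcard] at h1
        refine le_trans (le_of_eq ?_) (real_root hE (hN 0) h1)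
        rw [hS]
        congr!
      · have h0 : cnt N (fun n => n ∉ (Set.univ : Set (Fin 1 → ℕ))) = 0 := by
          rw [Pool.Agent.TH784.AA.cnt_eq_sum]
          exact Finset.sum_eq_zero fun n _ => if_neg fun h => h (Set.mem_univ n)
        rw [h0]
        have := Pool.Agent.TH784.AA.vol_nonneg N
        positivity)
  filter_upwards [key] with x hx
  have h1 : Tendsto (fun N : ℕ => fun _ : Fin 1 => N) atTop atTop :=
    tendsto_atTop_atTop.2 fun b => ⟨b 0, fun a ha i => by
      rw [Subsingleton.elim i 0]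
      exact ha⟩
  refine (hx.comp h1).congr fun N => ?_
  rw [Function.comp_apply, bxc_eq]
  have h2 : vol (fun _ : Fin 1 => N) = (N : ℝ) := by
    rw [vol, Fin.prod_univ_one]
  rw [h2]
  congr 1
  refine Finset.sum_nbij' (fun n => n 0) (fun a _ => a) ?_ ?_ ?_ ?_ ?_
  · intro n hn
    exact Finset.mem_range.2 (mem_bxs.1 hn 0)
  · intro a ha
    exact mem_bxs.2 fun _ => Finset.mem_range.1 ha
  · intro n _
    funext i
    rw [Subsingleton.elim i 0]
  · intro a _
    rfl
  · intro n _
    rfl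

end

variable {X : Type u} [CommGroup X] [TopologicalSpace X] [IsTopologicalGroup X] [CompactSpace X]
  [T2Space X] [MeasurableSpace X] [BorelSpace X] {μ : Measure X} [IsProbabilityMeasure μ]
  [μ.IsHaarMeasure]

omit [T2Space X] in
/-- one-sided averages of products of characters -/
theorem one_sideF {D m : ℕ} {T : Fin D → Equiv.Perm X}
    (hT : ∀ a : Fin D → ℤ, IsAff ((List.ofFn fun i => T i ^ a i).prod : X → X))
    (hc : ∀ i j, Commute (T i) (T j)) (P : Fin D → Fin m → ℤ[X]) (χ : Fin m → X →ₜ* Circle) :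
    ∀ᵐ x ∂μ, ∃ L, Tendsto (fun N : ℕ => (N : ℂ)⁻¹ * ∑ n ∈ Finset.range N,
      ∏ j, (χ j ((List.ofFn fun i => T i ^ (P i j).eval (n : ℤ)).prod x) : ℂ)) atTop (𝓝 L) := by
  classical
  let w : Fin m → BB X := fun j => Additive.ofMul fun x => χ j x
  let U : ℤ → BB X := fun n => ∑ j, act hc (Multiplicative.ofAdd fun i => (P i j).eval n) (w j)
  have hA : ∀ g, ∀ a ∈ AC X, act hc g a ∈ AC X := fun g a ha => IsAC.comp ha (hT _)
  have hw : ∀ j, w j ∈ AC X := fun j => ⟨χ j, 1, fun x => (one_mul _).symm⟩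
  obtain ⟨q, hq, hd⟩ := seq_dichF (act hc) (KK X)
    (fun g c hc' => pbk_KK _ hc') P w U (fun n => rfl)
  have hUac : ∀ n, IsAC (U n).toMul := fun n => (AC X).sum_mem fun j _ => hA _ _ (hw j)
  have hprod : ∀ (n : ℤ) (x : X), ∏ j, (χ j ((List.ofFn fun i => T i ^ (P i j).eval n).prod x) : ℂ) =
      fb (U n) x := by
    intro n x
    have key : ∀ s : Finset (Fin m),
        ∏ j ∈ s, (χ j ((List.ofFn fun i => T i ^ (P i j).eval n).prod x) : ℂ) =
        fb (∑ j ∈ s, act hc (Multiplicative.ofAdd fun i => (P i j).eval n) (w j)) x := by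
      intro s
      induction s using Finset.induction_on with
      | empty =>
        rw [Finset.prod_empty, Finset.sum_empty]
        simp [fb]
      | insert j s hj ih =>
        rw [Finset.prod_insert hj, Finset.sum_insert hj, fb_add, ih]
        rfl
    exact key _
  have hr : ∀ r : ℕ, ∀ᵐ x ∂μ, ∃ L, Tendsto (fun N : ℕ => (N : ℂ)⁻¹ *
      ∑ n ∈ Finset.range N, fb (U ((r + q * n : ℕ) : ℤ)) x) atTop (𝓝 L) := by
    intro r
    rcases hd r with ⟨B, c, hcK, h⟩ | ⟨r₀, M, hM⟩
    · refine Eventually.of_forall fun x => ?_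
      obtain ⟨L, hL⟩ := phase_conv (U (r : ℤ)) B c hcK x
      refine ⟨L, hL.congr fun N => ?_⟩
      congr 1
      apply Finset.sum_congr rfl
      intro n _
      rw [← h n, add_sub_cancel]
    · filter_upwards [ae_zeroF (μ := μ) (fun n => U ((r + q * n : ℕ) : ℤ)) (fun n => hUac _) hM]
        with x hx
      exact ⟨0, hx⟩
  filter_upwards [ae_all_iff.mpr hr] with x hx
  simp only [hprod]
  exact Pool.Agent.H922R3.TA.avg_classes (u := fun n : ℕ => fb (U n) x) (C := 1)
    (fun n => (norm_fb _ _).le) hq hx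

end Pool.Agent.V5helper56.CD
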