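import Pool.Agent.V5helper56.CD.Zeros
import Pool.Agent.V5helper56.CC.IntDich

/-!
# Sequences which take each value rarely
-/

set_option autoImplicit false

open Polynomial

noncomputable section

namespace Pool.Agent.V5helper56.CD

open Finset
open Pool.Agent.V5helper56.CC (os Dich)

/-- each value is taken by at most `C N ^ (1 - 2 ^ (-r))` of the first `N` terms -/
def Few {W : Type*} (u : ℕ → W) : Prop := ∃ r K : ℕ, ∀ (w : W) (N : ℕ), 1 ≤ N →
  ∀ s ⊆ range N, (∀ n ∈ s, u n = w) → s.card ^ (2 ^ r) ≤ K * N ^ (2 ^ r - 1)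

/-- constant, or each value is taken rarely, along the progressions modulo `q` -/
def DichF {W : Type*} (u : ℤ → W) (q : ℕ) : Prop := ∀ r : ℕ,
  (∀ n : ℕ, u ((r + q * n : ℕ) : ℤ) = u (r : ℤ)) ∨ Few fun n : ℕ => u ((r + q * n : ℕ) : ℤ)

theorem Few.of_bdd {W : Type*} {u : ℕ → W} {K : ℕ}
    (h : ∀ (w : W) (s : Finset ℕ), (∀ n ∈ s, u n = w) → s.card ≤ K) : Few u := by
  refine ⟨0, K, fun w N _ s _ hs => ?_⟩
  have := h w s hs
  simpa using this

theorem Few.of_map {W W' : Type*} {u : ℕ → W} {u' : ℕ → W'} (h : Few u')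
    (hu : ∀ n n', u n = u n' → u' n = u' n') : Few u := by
  obtain ⟨r, K, h⟩ := h
  refine ⟨r, K, fun w N hN s hs hw => ?_⟩
  rcases s.eq_empty_or_nonempty with h0 | ⟨n₁, hn₁⟩
  · rw [h0, card_empty, zero_pow (by positivity)]
    exact Nat.zero_le _
  · exact h (u' n₁) N hN s hs fun n hn => hu _ _ ((hw n hn).trans (hw n₁ hn₁).symm)

theorem Few.sub {W : Type*} {u : ℕ → W} (h : Few u) {k : ℕ} (hk : 1 ≤ k) :
    Few fun n => u (k * n) := by
  classical
  obtain ⟨r, K, h⟩ := h
  refine ⟨r, K * k ^ (2 ^ r - 1), fun w N hN s hs hw => ?_⟩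
  have hinj : Function.Injective fun n : ℕ => k * n := fun a b hab =>
    Nat.eq_of_mul_eq_mul_left (by omega) hab
  have h1 := h w (k * N) (Nat.mul_pos hk hN) (s.image fun n => k * n) (by
    intro n hn
    obtain ⟨n', hn', rfl⟩ := mem_image.1 hn
    have h2 := mem_range.1 (hs hn')
    exact mem_range.2 (Nat.mul_lt_mul_of_pos_left h2 (by omega))) (by
    intro n hn
    obtain ⟨n', hn', rfl⟩ := mem_image.1 hn
    exact hw n' hn')
  rw [card_image_of_injective s hinj] at h1
  refine h1.trans (le_of_eq ?_)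
  rw [mul_pow]
  ring

theorem Dich.toF {W : Type*} {u : ℤ → W} {q : ℕ} (h : Dich u q) : DichF u q := by
  intro r
  rcases h r with h1 | ⟨K, hK⟩
  · exact Or.inl h1
  · exact Or.inr (Few.of_bdd hK)

theorem DichF.mul {W : Type*} {u : ℤ → W} {q : ℕ} (h : DichF u q) {k : ℕ} (hk : 1 ≤ k) :
    DichF u (q * k) := by
  intro r
  rcases h r with h1 | h1
  · left
    intro n
    have := h1 (k * n)
    rwa [← mul_assoc] at this
  · right
    have h2 := h1.sub hk
    have e : (fun n : ℕ => u ((r + q * k * n : ℕ) : ℤ)) =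
        fun n : ℕ => u ((r + q * (k * n) : ℕ) : ℤ) := by
      funext n
      rw [mul_assoc]
    rw [e]
    exact h2

end Pool.Agent.V5helper56.CD
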