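import Pool.Agent.V5helper56.CD.Shift

/-!
# Reduction of finite sets of polynomial maps by translations and differences (PET induction)
-/

set_option autoImplicit false

noncomputable section

namespace Pool.Agent.V5helper56.CD

open Finset
open scoped Classical

variable {G : Type*} [AddCommGroup G]

/-- the next system -/
def nxt (A : Finset (Z0 G)) (a : Z0 G) (h : ℕ) : Finset (Z0 G) :=
  ((A.erase a).image fun v => v - a) ∪ ((A.erase a).image fun v => sh (h : ℤ) (v - a))

theorem mem_nxt {A : Finset (Z0 G)} {a : Z0 G} {h : ℕ} {w : Z0 G} (hw : w ∈ nxt A a h) :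
    ∃ v ∈ A, v ≠ a ∧ (w = v - a ∨ w = sh (h : ℤ) (v - a)) := by
  rw [nxt, mem_union, mem_image, mem_image] at hw
  rcases hw with ⟨v, hv, rfl⟩ | ⟨v, hv, rfl⟩
  · exact ⟨v, mem_of_mem_erase hv, ne_of_mem_erase hv, Or.inl rfl⟩
  · exact ⟨v, mem_of_mem_erase hv, ne_of_mem_erase hv, Or.inr rfl⟩

theorem nxt_mem {A : Finset (Z0 G)} {a : Z0 G} {h : ℕ} {w v : Z0 G} (hv : v ∈ A) (hva : v ≠ a)
    (hw : w = v - a ∨ w = sh (h : ℤ) (v - a)) : w ∈ nxt A a h := by
  rw [nxt, mem_union, mem_image, mem_image]
  rcases hw with rfl | rfl
  · exact Or.inl ⟨v, mem_erase.2 ⟨hva, hv⟩, rfl⟩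
  · exact Or.inr ⟨v, mem_erase.2 ⟨hva, hv⟩, rfl⟩

theorem card_nxt (A : Finset (Z0 G)) (a : Z0 G) (h : ℕ) : (nxt A a h).card ≤ 2 * A.card := by
  refine (card_union_le _ _).trans ?_
  have h1 : (A.erase a).card ≤ A.card := card_le_card (erase_subset _ _)
  have h2 := card_image_le (s := A.erase a) (f := fun v => v - a)
  have h3 := card_image_le (s := A.erase a) (f := fun v => sh (h : ℤ) (v - a))
  omega

/-- systems which are reduced to single maps after `r` steps -/
def Red : ℕ → Finset (Z0 G) → Prop
  | 0, A => A.card ≤ 1
  | r + 1, A => A.card ≤ 1 ∨ ∃ a ∈ A, ∀ h : ℕ, 1 ≤ h → ∀ A₁ ⊆ nxt A a h, Red r A₁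

theorem Red.of_card {r : ℕ} {A : Finset (Z0 G)} (h : A.card ≤ 1) : Red r A := by
  cases r with
  | zero => exact h
  | succ r => exact Or.inl h

theorem Red.succ {r : ℕ} {A : Finset (Z0 G)} (h : Red r A) : Red (r + 1) A := by
  induction r generalizing A with
  | zero => exact Or.inl h
  | succ r ih =>
    rcases h with h | ⟨a, ha, h⟩
    · exact Or.inl h
    · exact Or.inr ⟨a, ha, fun l hl A₁ hA => ih (h l hl A₁ hA)⟩

theorem Red.mono {r s : ℕ} (hrs : r ≤ s) {A : Finset (Z0 G)} (h : Red r A) : Red s A := by
  induction s, hrs using Nat.le_induction with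
  | base => exact h
  | succ s _ ih => exact ih.succ

theorem Red.translate {r : ℕ} {A : Finset (Z0 G)} (h : Red r A) (b : Z0 G) :
    Red r (A.image fun v => v - b) := by
  cases r with
  | zero => exact card_image_le.trans h
  | succ r =>
    rcases h with h | ⟨a, ha, h⟩
    · exact Or.inl (card_image_le.trans h)
    · refine Or.inr ⟨a - b, mem_image_of_mem _ ha, fun l hl A₁ hA => h l hl A₁ (hA.trans ?_)⟩
      intro w hw
      obtain ⟨v, hv, hva, hw⟩ := mem_nxt hw
      obtain ⟨v', hv', rfl⟩ := mem_image.1 hv
      have e : v' - b - (a - b) = v' - a := by abel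
      rw [e] at hw
      exact nxt_mem hv' (fun h => hva (by rw [h])) hw

theorem red_all : ∀ (d k : ℕ), ∃ r : ℕ, ∀ A : Finset (Z0 G), (∀ v ∈ A, PD (d + 1) v.1) →
    A.card ≤ k → Red r A := by
  intro d
  induction d with
  | zero =>
    intro k
    refine ⟨0, fun A hA _ => ?_⟩
    show A.card ≤ 1
    rw [card_le_one]
    intro v hv w hw
    rw [PD.eq_zero (hA v hv), PD.eq_zero (hA w hw)]
  | succ d ihd =>
    -- the number of leading coefficients
    have L : ∀ e k : ℕ, ∃ r : ℕ, ∀ A : Finset (Z0 G), (∀ v ∈ A, PD (d + 1 + 1) v.1) → A.card ≤ k →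
        (A.image (lc (d + 1))).card ≤ e → Red r A := by
      intro e
      induction e with
      | zero =>
        intro k
        refine ⟨0, fun A _ _ h => ?_⟩
        have h1 : A = ∅ := by
          rwa [Nat.le_zero, card_eq_zero, image_eq_empty] at h
        rw [h1]
        exact Nat.zero_le _
      | succ e ihe =>
        have M : ∀ r' k : ℕ, ∃ r : ℕ, ∀ A : Finset (Z0 G), (∀ v ∈ A, PD (d + 1 + 1) v.1) →
            A.card ≤ k → ∀ g : G, Red r' (A.filter fun v => lc (d + 1) v = g) →
            ((A.filter fun v => lc (d + 1) v ≠ g).image (lc (d + 1))).card ≤ e → Red r A := by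
          intro r'
          -- the new elements
          have hPD : ∀ (A : Finset (Z0 G)), (∀ v ∈ A, PD (d + 1 + 1) v.1) → ∀ b ∈ A, ∀ (h : ℕ),
              ∀ w ∈ nxt A b h, PD (d + 1 + 1) w.1 ∧ ∃ v ∈ A, v ≠ b ∧
                (w = v - b ∨ w = sh (h : ℤ) (v - b)) ∧
                lc (d + 1) w = lc (d + 1) v - lc (d + 1) b := by
            intro A hA b hb h w hw
            obtain ⟨v, hv, hvb, hw⟩ := mem_nxt hw
            have h1 : PD (d + 1 + 1) (v - b).1 := (hA v hv).sub (hA b hb)
            rcases hw with rfl | rfl
            · exact ⟨h1, v, hv, hvb, Or.inl rfl, lc_sub _ _ _⟩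
            · refine ⟨h1.sh h, v, hv, hvb, Or.inr rfl, ?_⟩
              rw [lc_sh (by omega) h1, lc_sub]
          induction r' with
          | zero =>
            intro k
            obtain ⟨r₁, hr₁⟩ := ihe (2 * k)
            refine ⟨r₁ + 1, fun A hA hk g hB hH => ?_⟩
            change (A.filter fun v => lc (d + 1) v = g).card ≤ 1 at hB
            rcases (A.filter fun v => lc (d + 1) v = g).eq_empty_or_nonempty with h0 | ⟨b, hb⟩
            · refine (hr₁ A hA (by omega) ?_).succ
              have e1 : A.filter (fun v => lc (d + 1) v ≠ g) = A := by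
                rw [filter_eq_self]
                intro v hv hvg
                have : v ∈ A.filter fun v => lc (d + 1) v = g := mem_filter.2 ⟨hv, hvg⟩
                rw [h0] at this
                exact notMem_empty _ this
              rwa [e1] at hH
            · have hb' := mem_filter.1 hb
              refine Or.inr ⟨b, hb'.1, fun h hh A₁ hA₁ => ?_⟩
              refine hr₁ A₁ (fun w hw => (hPD A hA b hb'.1 h w (hA₁ hw)).1) ?_ ?_
              · have := card_le_card hA₁
                have := card_nxt A b h
                omega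
              · refine le_trans ?_ hH
                have hsub : A₁.image (lc (d + 1)) ⊆
                    ((A.filter fun v => lc (d + 1) v ≠ g).image (lc (d + 1))).image
                      fun x => x - lc (d + 1) b := by
                  intro x hx
                  obtain ⟨w, hw, rfl⟩ := mem_image.1 hx
                  obtain ⟨-, v, hv, hvb, -, hlc⟩ := hPD A hA b hb'.1 h w (hA₁ hw)
                  refine mem_image.2 ⟨lc (d + 1) v, mem_image.2 ⟨v, mem_filter.2 ⟨hv, fun h1 => ?_⟩,
                    rfl⟩, hlc.symm⟩
                  exact hvb (card_le_one.1 hB v (mem_filter.2 ⟨hv, h1⟩) b hb)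
                exact (card_le_card hsub).trans card_image_le
          | succ r' ihr =>
            intro k
            obtain ⟨r₁, hr₁⟩ := ihr (2 * k)
            refine ⟨r₁ + 1, fun A hA hk g hB hH => ?_⟩
            rcases hB with hB | ⟨b, hb, hB⟩
            · exact (hr₁ A hA (by omega) g (Red.of_card hB) hH).succ
            · have hb' := mem_filter.1 hb
              refine Or.inr ⟨b, hb'.1, fun h hh A₁ hA₁ => ?_⟩
              refine hr₁ A₁ (fun w hw => (hPD A hA b hb'.1 h w (hA₁ hw)).1) ?_ 0 ?_ ?_
              · have := card_le_card hA₁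
                have := card_nxt A b h
                omega
              · refine hB h hh _ fun w hw => ?_
                rw [mem_filter] at hw
                obtain ⟨-, v, hv, hvb, hwv, hlc⟩ := hPD A hA b hb'.1 h w (hA₁ hw.1)
                refine nxt_mem (mem_filter.2 ⟨hv, ?_⟩) hvb hwv
                rw [hw.2, hb'.2] at hlc
                exact (sub_eq_zero.1 hlc.symm)
              · refine le_trans ?_ hH
                have hsub : (A₁.filter fun v => lc (d + 1) v ≠ 0).image (lc (d + 1)) ⊆
                    ((A.filter fun v => lc (d + 1) v ≠ g).image (lc (d + 1))).image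
                      fun x => x - g := by
                  intro x hx
                  obtain ⟨w, hw, rfl⟩ := mem_image.1 hx
                  rw [mem_filter] at hw
                  obtain ⟨-, v, hv, hvb, -, hlc⟩ := hPD A hA b hb'.1 h w (hA₁ hw.1)
                  rw [hb'.2] at hlc
                  refine mem_image.2 ⟨lc (d + 1) v, mem_image.2 ⟨v, mem_filter.2 ⟨hv, fun h1 => ?_⟩,
                    rfl⟩, hlc.symm⟩
                  apply hw.2
                  rw [hlc, h1, sub_self]
                exact (card_le_card hsub).trans card_image_le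
        intro k
        obtain ⟨r', hr'⟩ := ihd k
        obtain ⟨r, hr⟩ := M r' k
        refine ⟨r, fun A hA hk he => ?_⟩
        rcases A.eq_empty_or_nonempty with h0 | ⟨a, ha⟩
        · rw [h0]
          exact Red.of_card (Nat.zero_le _)
        · refine hr A hA hk (lc (d + 1) a) ?_ ?_
          · set B := A.filter fun v => lc (d + 1) v = lc (d + 1) a with hB
            have h1 : Red r' (B.image fun v => v - a) := by
              refine hr' _ ?_ ?_
              · intro w hw
                obtain ⟨v, hv, rfl⟩ := mem_image.1 hw
                rw [hB, mem_filter] at hv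
                have h2 : PD (d + 1 + 1) (v - a).1 := (hA v hv.1).sub (hA a ha)
                refine h2.of_lc ?_
                rw [lc_sub, hv.2, sub_self]
              · exact card_image_le.trans ((card_le_card (filter_subset _ _)).trans hk)
            have h2 := h1.translate (-a)
            have h3 : (B.image fun v => v - a).image (fun v => v - -a) = B := by
              rw [image_image]
              have : ((fun v : Z0 G => v - -a) ∘ fun v => v - a) = id := by
                funext v
                show v - a - -a = v
                abel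
              rw [this, image_id]
            rwa [h3] at h2
          · have hsub : (A.filter fun v => lc (d + 1) v ≠ lc (d + 1) a).image (lc (d + 1)) ⊆
                (A.image (lc (d + 1))).erase (lc (d + 1) a) := by
              intro x hx
              obtain ⟨w, hw, rfl⟩ := mem_image.1 hx
              rw [mem_filter] at hw
              exact mem_erase.2 ⟨hw.2, mem_image_of_mem _ hw.1⟩
            have h1 := card_le_card hsub
            have h2 : lc (d + 1) a ∈ A.image (lc (d + 1)) := mem_image_of_mem _ ha
            rw [card_erase_of_mem h2] at h1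
            omega
    intro k
    obtain ⟨r, hr⟩ := L k k
    exact ⟨r, fun A hA hk => hr A hA hk (card_image_le.trans hk)⟩

end Pool.Agent.V5helper56.CD
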