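import Mathlib

/-!
# Shifts of polynomial maps from `ℤ` to a torsion-free abelian group
-/

set_option autoImplicit false

open fwdDiff

noncomputable section

namespace Pool.Agent.V5helper56.CD

variable {G : Type*} [AddCommGroup G]

/-- the maps `ℤ → G` which vanish at `0` -/
def Z0 (G : Type*) [AddCommGroup G] : AddSubgroup (ℤ → G) where
  carrier := {v | v 0 = 0}
  zero_mem' := rfl
  add_mem' := fun {a b} ha hb => by
    show a 0 + b 0 = 0
    rw [ha, hb, add_zero]
  neg_mem' := fun {a} ha => by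
    show -(a 0) = 0
    rw [ha, neg_zero]

theorem at_zero (v : Z0 G) : v.1 0 = 0 := v.2

/-- the shift `n ↦ v (n + h) - v h` -/
def sh (h : ℤ) : Z0 G →+ Z0 G where
  toFun v := ⟨fun n => v.1 (n + h) - v.1 h, by
    show v.1 (0 + h) - v.1 h = 0
    rw [zero_add, sub_self]⟩
  map_zero' := by
    apply Subtype.ext
    funext n
    show (0 : G) - 0 = 0
    rw [sub_zero]
  map_add' v w := by
    apply Subtype.ext
    funext n
    show (v.1 (n + h) + w.1 (n + h)) - (v.1 h + w.1 h) = (v.1 (n + h) - v.1 h) + (w.1 (n + h) - w.1 h)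
    abel

theorem sh_apply (h : ℤ) (v : Z0 G) (n : ℤ) : (sh h v).1 n = v.1 (n + h) - v.1 h := rfl

theorem sh_sh (h h' : ℤ) (v : Z0 G) : sh h (sh h' v) = sh (h + h') v := by
  apply Subtype.ext
  funext n
  rw [sh_apply, sh_apply, sh_apply, sh_apply, add_assoc]
  abel

theorem sh_zero (v : Z0 G) : sh 0 v = v := by
  apply Subtype.ext
  funext n
  rw [sh_apply, at_zero v, add_zero, sub_zero]

theorem sh_neg_sh (h : ℤ) (v : Z0 G) : sh (-h) (sh h v) = v := by
  rw [sh_sh, neg_add_cancel, sh_zero]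

theorem sh_sh_neg (h : ℤ) (v : Z0 G) : sh h (sh (-h) v) = v := by
  rw [sh_sh, add_neg_cancel, sh_zero]

theorem sh_inj (h : ℤ) {v w : Z0 G} (e : sh h v = sh h w) : v = w := by
  rw [← sh_neg_sh h v, e, sh_neg_sh]

theorem sh_iter (h : ℤ) (v : Z0 G) (k : ℕ) : (sh h)^[k] v = sh (k * h) v := by
  induction k with
  | zero => simp [sh_zero]
  | succ k ih =>
    rw [Function.iterate_succ_apply', ih, sh_sh]
    congr 2
    push_cast
    ring

/-- degree less than `k` -/
def PD (k : ℕ) (f : ℤ → G) : Prop := (fwdDiff 1)^[k] f = 0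

theorem PD.zero (k : ℕ) : PD k (0 : ℤ → G) := by
  induction k with
  | zero => rfl
  | succ k ih =>
    rw [PD, Function.iterate_succ_apply]
    have : fwdDiff 1 (0 : ℤ → G) = 0 := by
      funext n
      simp [fwdDiff]
    rw [this]
    exact ih

theorem PD.succ {k : ℕ} {f : ℤ → G} (h : PD k f) : PD (k + 1) f := by
  rw [PD, Function.iterate_succ_apply', h]
  funext n
  simp [fwdDiff]

theorem PD.mono {k l : ℕ} (hkl : k ≤ l) {f : ℤ → G} (h : PD k f) : PD l f := by
  induction l, hkl using Nat.le_induction with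
  | base => exact h
  | succ l _ ih => exact ih.succ

theorem fd_sub (f g : ℤ → G) : fwdDiff 1 (f - g) = fwdDiff 1 f - fwdDiff 1 g := by
  funext n
  simp only [fwdDiff, Pi.sub_apply]
  abel

theorem iter_sub (k : ℕ) (f g : ℤ → G) :
    (fwdDiff 1)^[k] (f - g) = (fwdDiff 1)^[k] f - (fwdDiff 1)^[k] g := by
  induction k generalizing f g with
  | zero => rfl
  | succ k ih => rw [Function.iterate_succ_apply, fd_sub, ih, ← Function.iterate_succ_apply,
      ← Function.iterate_succ_apply]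

theorem PD.sub {k : ℕ} {f g : ℤ → G} (hf : PD k f) (hg : PD k g) : PD k (f - g) := by
  rw [PD, iter_sub, hf, hg, sub_zero]

theorem PD.add {k : ℕ} {f g : ℤ → G} (hf : PD k f) (hg : PD k g) : PD k (f + g) := by
  have h1 : f + g = f - (0 - g) := by abel
  rw [h1]
  exact hf.sub ((PD.zero k).sub hg)

theorem const_of_fd {f : ℤ → G} (h : fwdDiff 1 f = 0) (n : ℤ) : f n = f 0 := by
  have h1 : ∀ n, f (n + 1) = f n := fun n => by
    have := congrFun h n
    exact sub_eq_zero.1 this
  induction n using Int.induction_on with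
  | zero => rfl
  | succ n ih => rw [h1, ih]
  | pred n ih =>
    rw [← ih, ← h1 (-(n : ℤ) - 1), sub_add_cancel]

theorem PD.const (a : G) : PD 1 (fun _ : ℤ => a) := by
  rw [PD, Function.iterate_one]
  funext n
  simp [fwdDiff]

theorem fd_comm (h : ℤ) (f : ℤ → G) : fwdDiff 1 (fwdDiff h f) = fwdDiff h (fwdDiff 1 f) := by
  funext n
  simp only [fwdDiff]
  rw [add_right_comm n 1 h]
  abel

theorem iter_comm (k : ℕ) (h : ℤ) (f : ℤ → G) :
    (fwdDiff 1)^[k] (fwdDiff h f) = fwdDiff h ((fwdDiff 1)^[k] f) := by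
  induction k generalizing f with
  | zero => rfl
  | succ k ih => rw [Function.iterate_succ_apply, fd_comm, ih, ← Function.iterate_succ_apply]

/-- differences with arbitrary steps lower the degree -/
theorem PD.fd {k : ℕ} {f : ℤ → G} (hf : PD (k + 1) f) (h : ℕ) : PD k (fwdDiff (h : ℤ) f) := by
  rw [PD, iter_comm]
  have h1 : fwdDiff 1 ((fwdDiff 1)^[k] f) = 0 := by
    rw [← Function.iterate_succ_apply' (fwdDiff 1) k f]
    exact hf
  funext n
  simp only [fwdDiff]
  rw [const_of_fd h1 (n + h), const_of_fd h1 n, sub_self]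
  rfl

theorem PD.sh_sub {k : ℕ} (hk : 1 ≤ k) {v : Z0 G} (hv : PD (k + 1) v.1) (h : ℕ) :
    PD k (sh (h : ℤ) v - v).1 := by
  have e : (sh (h : ℤ) v - v).1 = fwdDiff (h : ℤ) v.1 - fun _ => v.1 h := by
    funext n
    show (sh (h : ℤ) v).1 n - v.1 n = fwdDiff (h : ℤ) v.1 n - v.1 h
    rw [sh_apply]
    simp only [fwdDiff]
    abel
  rw [e]
  exact (hv.fd h).sub ((PD.const _).mono hk)

theorem PD.eq_zero {v : Z0 G} (hv : PD 1 v.1) : v = 0 := by
  apply Subtype.ext
  funext n
  rw [PD, Function.iterate_one] at hv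
  rw [const_of_fd hv n, at_zero v]
  rfl

theorem PD.linear {v : Z0 G} (hv : PD 2 v.1) (n : ℤ) : v.1 n = n • v.1 1 := by
  have h1 : fwdDiff 1 (fwdDiff 1 v.1) = 0 := hv
  have h2 : ∀ n, v.1 (n + 1) = v.1 n + v.1 1 := by
    intro n
    have h3 := const_of_fd h1 n
    simp only [fwdDiff] at h3
    rw [zero_add, at_zero v, sub_zero] at h3
    rw [← h3]
    abel
  induction n using Int.induction_on with
  | zero => rw [at_zero v, zero_smul]
  | succ n ih => rw [h2, ih, add_smul, one_smul]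
  | pred n ih =>
    have h3 := h2 (-(n : ℤ) - 1)
    rw [sub_add_cancel, ih] at h3
    rw [sub_smul, one_smul, h3]
    abel

/-- a polynomial map fixed by a shift is linear -/
theorem PD.fixed (htf : ∀ (n : ℕ) (g : G), 1 ≤ n → n • g = 0 → g = 0) {v : Z0 G} {h : ℕ} (hh : 1 ≤ h)
    (hfix : sh (h : ℤ) v = v) {k : ℕ} (hv : PD k v.1) : PD 2 v.1 := by
  have hconst : fwdDiff (h : ℤ) v.1 = fun _ => v.1 h := by
    funext n
    have := congrArg (fun w : Z0 G => w.1 n) hfix
    simp only [sh_apply] at this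
    simp only [fwdDiff]
    rw [sub_eq_iff_eq_add] at this
    rw [this]
    abel
  have key : ∀ j, 2 ≤ j → PD (j + 1) v.1 → PD j v.1 := by
    intro j hj hv
    have h1 : fwdDiff 1 ((fwdDiff 1)^[j] v.1) = 0 := by
      rw [← Function.iterate_succ_apply' (fwdDiff 1) j v.1]
      exact hv
    obtain ⟨i, rfl⟩ : ∃ i, j = i + 1 := ⟨j - 1, by omega⟩
    set g := (fwdDiff 1)^[i] v.1 with hg
    have h2 : ∀ n, fwdDiff 1 g n = ((fwdDiff 1)^[i + 1] v.1) 0 := by
      intro n
      rw [hg, ← Function.iterate_succ_apply' (fwdDiff 1) i v.1]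
      exact const_of_fd h1 n
    set a := ((fwdDiff 1)^[i + 1] v.1) 0 with ha
    have h3 : ∀ l : ℕ, g (l : ℤ) = g 0 + l • a := by
      intro l
      induction l with
      | zero => simp
      | succ l ih =>
        have := h2 (l : ℤ)
        simp only [fwdDiff] at this
        rw [sub_eq_iff_eq_add] at this
        push_cast
        rw [this, ih, succ_nsmul]
        abel
    have h4 : (fwdDiff 1)^[i] (fwdDiff (h : ℤ) v.1) = 0 := by
      rw [hconst]
      exact (PD.const _).mono (by omega)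
    rw [iter_comm] at h4
    have h5 := congrFun h4 0
    simp only [fwdDiff] at h5
    rw [zero_add, ← hg, h3 h, add_sub_cancel_left] at h5
    have h6 := htf h a hh h5
    rw [PD]
    funext n
    rw [const_of_fd h1 n, ← ha, h6]
    rfl
  have key2 : ∀ j, PD (2 + j) v.1 → PD 2 v.1 := by
    intro j
    induction j with
    | zero => exact fun h => h
    | succ j ih => exact fun h => ih (key _ (by omega) h)
  exact key2 k (hv.mono (by omega))

/-- the leading coefficient -/
def lc (k : ℕ) (v : Z0 G) : G := ((fwdDiff 1)^[k] v.1) 0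

theorem lc_sub (k : ℕ) (v w : Z0 G) : lc k (v - w) = lc k v - lc k w := by
  show ((fwdDiff 1)^[k] (v.1 - w.1)) 0 = _
  rw [iter_sub]
  rfl

theorem PD.of_lc {k : ℕ} {v : Z0 G} (hv : PD (k + 1) v.1) (h : lc k v = 0) : PD k v.1 := by
  rw [PD]
  funext n
  have h1 : fwdDiff 1 ((fwdDiff 1)^[k] v.1) = 0 := by
    rw [← Function.iterate_succ_apply' (fwdDiff 1) k v.1]
    exact hv
  rw [const_of_fd h1 n]
  exact h

theorem lc_sh {k : ℕ} (hk : 1 ≤ k) {v : Z0 G} (hv : PD (k + 1) v.1) (h : ℕ) :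
    lc k (sh (h : ℤ) v) = lc k v := by
  have h1 := PD.sh_sub hk hv h
  have h2 : lc k (sh (h : ℤ) v - v) = 0 := congrFun h1 0
  rw [lc_sub] at h2
  exact sub_eq_zero.1 h2

theorem PD.sh {k : ℕ} {v : Z0 G} (hv : PD (k + 1) v.1) (h : ℕ) : PD (k + 1) (sh (h : ℤ) v).1 := by
  rcases Nat.eq_zero_or_pos k with rfl | hk
  · rw [PD.eq_zero hv, map_zero]
    exact PD.zero _
  · have h1 := (PD.sh_sub hk hv h).succ
    have h2 : (CD.sh (h : ℤ) v).1 = (CD.sh (h : ℤ) v - v).1 + v.1 := by
      funext n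
      show _ = ((CD.sh (h : ℤ) v).1 n - v.1 n) + v.1 n
      abel
    rw [h2]
    exact h1.add hv

end Pool.Agent.V5helper56.CD
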