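import Pool.Agent.V5helper56.CD.Conv

/-!
# Commuting affine maps of compact abelian groups: the main theorem
-/

set_option autoImplicit false

open Filter Topology MeasureTheory Polynomial

noncomputable section

namespace Pool.Agent.V5helper56.CD

open Pool.Agent.TH635.FB (av Cv SingleGood av_of_sides)
open Pool.Agent.TH784.AA (IsAff isAff_prod mp_symm)
open Pool.Agent.V5helper56.CC (ChsX norm_chars main_topX single_powX)

universe u

variable {X : Type u} [CommGroup X] [TopologicalSpace X] [IsTopologicalGroup X] [CompactSpace X]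
  [MeasurableSpace X] [BorelSpace X] {μ : Measure X} [IsProbabilityMeasure μ] [μ.IsHaarMeasure]
  {D m : ℕ} {T : Fin D → Equiv.Perm X}

theorem chsF [T2Space X] (hT : ∀ i, IsAff (T i : X → X))
    (hc : ∀ i j, Commute (T i) (T j)) (P : Fin D → Fin m → ℤ[X]) :
    ChsX μ fun (j : Fin m) (n : ℤ) =>
      ((List.ofFn fun i => T i ^ (P i j).eval n).prod : X → X) := by
  intro χ
  have haff : ∀ a : Fin D → ℤ, IsAff ((List.ofFn fun i => T i ^ a i).prod : X → X) :=
    fun a => isAff_prod hT a
  filter_upwards [one_sideF (μ := μ) haff hc P χ,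
    one_sideF (μ := μ) haff hc (fun i j => (P i j).comp (-Polynomial.X)) χ] with x h1 h2
  obtain ⟨L, hL⟩ := h1
  obtain ⟨L', hL'⟩ := h2
  exact ⟨(L + L') / 2, av_of_sides (u := fun n : ℤ =>
    ∏ j, (χ j ((List.ofFn fun i => T i ^ (P i j).eval n).prod x) : ℂ)) (C := 1)
    (norm_chars χ _) hL (hL'.congr fun N => by
      congr 1
      refine Finset.sum_congr rfl fun n _ => Finset.prod_congr rfl fun j _ => ?_
      simp only [eval_comp, eval_neg, eval_X])⟩

/-- **the main theorem** -/
theorem comm_affineF [TopologicalSpace.MetrizableSpace X]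
    (hT : ∀ i, IsAff (T i : X → X)) (hc : ∀ i j, Commute (T i) (T j))
    (P : Fin D → Fin m → ℤ[X]) {f : Fin m → X → ℂ} (hf : ∀ j, MemLp (f j) ⊤ μ)
    (hg : ∀ j, (∀ᵐ x ∂μ, ContinuousAt (f j) x) ∨
      (∃ b c : Equiv.Perm X, ∀ n : ℤ,
        (List.ofFn fun i => T i ^ (P i j).eval n).prod = b ^ n * c) ∨
      SingleGood μ fun n => ((List.ofFn fun i => T i ^ (P i j).eval n).prod : X → X)) :
    Cv μ (fun (j : Fin m) (n : ℤ) =>
      ((List.ofFn fun i => T i ^ (P i j).eval n).prod : X → X)) f := by
  have haff : ∀ a : Fin D → ℤ, IsAff ((List.ofFn fun i => T i ^ a i).prod : X → X) :=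
    fun a => isAff_prod hT a
  refine main_topX (chsF hT hc P) (fun j n => (haff _).mp) hf fun j => ?_
  rcases hg j with h | ⟨b, c, h⟩ | h
  · exact Or.inl h
  · right
    have hc0 : c = (List.ofFn fun i => T i ^ (P i j).eval 0).prod := by
      have := h 0
      rw [zpow_zero, one_mul] at this
      exact this.symm
    have hb1 : b = (List.ofFn fun i => T i ^ (P i j).eval 1).prod * c⁻¹ := by
      have := h 1
      rw [zpow_one] at this
      rw [this, mul_inv_cancel_right]
    have hca : IsAff (c : X → X) := by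
      rw [hc0]
      exact haff _
    have hba : IsAff (b : X → X) := by
      rw [hb1]
      exact (haff _).comp hca.symm
    simp only [h]
    exact single_powX hba.mp (mp_symm hba) hca.mp
  · exact Or.inr h

end Pool.Agent.V5helper56.CD
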