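import Pool.Agent.V5helper56.CD.Few

/-!
# Coprimary modules of positive characteristic
-/

set_option autoImplicit false

open Polynomial

noncomputable section

namespace Pool.Agent.V5helper56.CD

open Finset
open Pool.Agent.V5helper56.CC (os Dich IVP PZ PZ_mk PZ_sum PZ_diff)
open Pool.Agent.TH784.AA (Copr)

theorem one_add_pow' {R : Type*} [CommRing R] (n : ℕ) (y : R) :
    ∃ z, (1 + y) ^ n = 1 + (n : R) * y + y ^ 2 * z := by
  induction n with
  | zero => exact ⟨0, by simp⟩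
  | succ n ih =>
    obtain ⟨z, hz⟩ := ih
    refine ⟨(n : R) + z * (1 + y), ?_⟩
    rw [pow_succ, hz]
    push_cast
    ring

theorem unip_pow {R : Type*} [CommRing R] {B : ℕ} (hB : (B : R) = 0) (y : R) (j : ℕ) :
    ∃ z, (1 + y) ^ (B ^ j) = 1 + y ^ (2 ^ j) * z := by
  induction j with
  | zero => exact ⟨1, by simp⟩
  | succ j ih =>
    obtain ⟨z, hz⟩ := ih
    obtain ⟨z', hz'⟩ := one_add_pow' B (y ^ (2 ^ j) * z)
    refine ⟨z ^ 2 * z', ?_⟩
    rw [pow_succ, pow_mul, hz, hz', hB]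
    ring

variable {R W : Type*} [CommRing R] [AddCommGroup W] [Module R W] {D m : ℕ}

theorem unip_order {B : ℕ} (hB1 : 1 ≤ B) (hB : ∀ w : W, B • w = 0) {x : R}
    (hx : x - 1 ∈ (Module.annihilator R W).radical) : ∃ e : ℕ, 1 ≤ e ∧ ∀ w : W, x ^ e • w = w := by
  obtain ⟨k, hk⟩ := hx
  set I := Module.annihilator R W with hI
  have h1 : ((B : ℕ) : R ⧸ I) = 0 := by
    have h2 : ((B : ℕ) : R) ∈ I := by
      rw [hI, Module.mem_annihilator]
      intro w
      rw [Nat.cast_smul_eq_nsmul]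
      exact hB w
    rw [← map_natCast (Ideal.Quotient.mk I)]
    exact Ideal.Quotient.eq_zero_iff_mem.2 h2
  obtain ⟨z, hz⟩ := unip_pow h1 (Ideal.Quotient.mk I (x - 1)) k
  have h2 : (Ideal.Quotient.mk I (x - 1)) ^ (2 ^ k) = 0 := by
    have h3 : (Ideal.Quotient.mk I (x - 1)) ^ k = 0 := by
      rw [← map_pow]
      exact Ideal.Quotient.eq_zero_iff_mem.2 hk
    have h4 : k ≤ 2 ^ k := Nat.lt_two_pow_self.le
    rw [← Nat.sub_add_cancel h4, pow_add, h3, mul_zero]
  rw [h2, zero_mul, add_zero] at hz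
  have h5 : (1 : R ⧸ I) + Ideal.Quotient.mk I (x - 1) = Ideal.Quotient.mk I x := by
    rw [map_sub, map_one]
    ring
  rw [h5, ← map_pow, ← map_one (Ideal.Quotient.mk I), Ideal.Quotient.eq, hI,
    Module.mem_annihilator] at hz
  refine ⟨B ^ k, Nat.pow_pos hB1, fun w => ?_⟩
  have := hz w
  rwa [sub_smul, one_smul, sub_eq_zero] at this

/-- the product `t_1 ^ a_1 ⋯ t_D ^ a_D` -/
def Tp (t : Fin D → Rˣ) (a : Fin D → ℤ) : Rˣ := (List.ofFn fun i => t i ^ a i).prod

theorem Tp_eq (t : Fin D → Rˣ) (a : Fin D → ℤ) : Tp t a = ∏ i, t i ^ a i := by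
  rw [Tp, List.prod_ofFn]

theorem Tp_add (t : Fin D → Rˣ) (a b : Fin D → ℤ) : Tp t (a + b) = Tp t a * Tp t b := by
  rw [Tp_eq, Tp_eq, Tp_eq, ← prod_mul_distrib]
  exact prod_congr rfl fun i _ => zpow_add _ _ _

theorem Tp_zero (t : Fin D → Rˣ) : Tp t 0 = 1 := by
  rw [Tp_eq]
  exact prod_eq_one fun i _ => zpow_zero _

theorem Tp_smul (t : Fin D → Rˣ) (e : ℕ) (a : Fin D → ℤ) : Tp t (e • a) = Tp t a ^ e := by
  induction e with
  | zero => rw [zero_smul, pow_zero, Tp_zero]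
  | succ e ih => rw [succ_nsmul, Tp_add, ih, pow_succ]

/-- the action of `a` -/
def Sa (W : Type*) [AddCommGroup W] [Module R W] (t : Fin D → Rˣ) (a : Fin D → ℤ) : W →+ W :=
  DistribMulAction.toAddMonoidHom W ((Tp t a : Rˣ) : R)

theorem Sa_apply (t : Fin D → Rˣ) (a : Fin D → ℤ) (w : W) : Sa W t a w = ((Tp t a : Rˣ) : R) • w :=
  rfl

theorem Sa_add (t : Fin D → Rˣ) (a b : Fin D → ℤ) (w : W) :
    Sa W t (a + b) w = Sa W t a (Sa W t b w) := by
  rw [Sa_apply, Sa_apply, Sa_apply, Tp_add, Units.val_mul, mul_smul]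

theorem Sa_zero (t : Fin D → Rˣ) (w : W) : Sa W t 0 w = w := by
  rw [Sa_apply, Tp_zero, Units.val_one, one_smul]

theorem Sa_nsmul (t : Fin D → Rˣ) {a : Fin D → ℤ} (h : ∀ w, Sa W t a w = w) (e : ℕ) (w : W) :
    Sa W t (e • a) w = w := by
  induction e with
  | zero => rw [zero_smul, Sa_zero]
  | succ e ih => rw [succ_nsmul, Sa_add, h, ih]

theorem Sa_neg (t : Fin D → Rˣ) {a : Fin D → ℤ} (h : ∀ w, Sa W t a w = w) (w : W) :
    Sa W t (-a) w = w := by
  have h1 := Sa_add (W := W) t (-a) a w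
  rw [neg_add_cancel, Sa_zero, h] at h1
  exact h1.symm

variable (W) in
/-- the elements of finite order -/
def Lam (t : Fin D → Rˣ) : AddSubgroup (Fin D → ℤ) where
  carrier := {a | ∃ e : ℕ, 1 ≤ e ∧ ∀ w : W, Sa W t (e • a) w = w}
  zero_mem' := ⟨1, le_rfl, fun w => by rw [smul_zero, Sa_zero]⟩
  add_mem' := by
    rintro a b ⟨e, he, h⟩ ⟨e', he', h'⟩
    refine ⟨e * e', Nat.mul_pos he he', fun w => ?_⟩
    rw [smul_add, Sa_add]
    have h1 : (e * e') • b = e • (e' • b) := mul_smul _ _ _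
    have h2 : (e * e') • a = e' • (e • a) := by rw [mul_comm, mul_smul]
    rw [h1, h2, Sa_nsmul t h', Sa_nsmul t h]
  neg_mem' := by
    rintro a ⟨e, he, h⟩
    exact ⟨e, he, fun w => by rw [smul_neg, Sa_neg t h]⟩

variable (W) in
theorem exists_M (t : Fin D → Rˣ) : ∃ M : ℕ, 1 ≤ M ∧ ∀ a ∈ Lam W t, ∀ w : W,
    Sa W t (M • a) w = w := by
  classical
  have hfg : (AddSubgroup.toIntSubmodule (Lam W t)).FG := IsNoetherian.noetherian _
  obtain ⟨S, hS⟩ := hfg
  have hmem : ∀ a ∈ S, a ∈ Lam W t := by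
    intro a ha
    have : a ∈ AddSubgroup.toIntSubmodule (Lam W t) := by
      rw [← hS]
      exact Submodule.subset_span ha
    exact this
  choose! e he h using fun a (ha : a ∈ Lam W t) => (show ∃ e : ℕ, 1 ≤ e ∧ ∀ w : W,
    Sa W t (e • a) w = w from ha)
  refine ⟨∏ a ∈ S, e a, Nat.pos_of_ne_zero (prod_ne_zero_iff.2 fun a ha => by
    have := he a (hmem a ha)
    omega), fun a ha => ?_⟩
  have h1 : a ∈ Submodule.span ℤ (S : Set (Fin D → ℤ)) := by
    rw [hS]
    exact ha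
  induction h1 using Submodule.span_induction with
  | mem a haS =>
    intro w
    have h2 : (∏ a ∈ S, e a) • a = (∏ b ∈ S.erase a, e b) • (e a • a) := by
      rw [← mul_smul, prod_erase_mul S e haS]
    rw [h2, Sa_nsmul t (h a (hmem a haS))]
  | zero =>
    intro w
    rw [smul_zero, Sa_zero]
  | add x y h3 h4 hx hy =>
    intro w
    rw [smul_add, Sa_add]
    have hxm : x ∈ Lam W t := by
      rw [hS] at h3
      exact h3
    have hym : y ∈ Lam W t := by
      rw [hS] at h4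
      exact h4
    rw [hy hym, hx hxm]
  | smul z x h3 hx =>
    intro w
    have hxm : x ∈ Lam W t := by
      rw [hS] at h3
      exact h3
    rw [smul_comm]
    rcases Int.eq_nat_or_neg z with ⟨k, rfl | rfl⟩
    · rw [natCast_zsmul]
      exact Sa_nsmul t (hx hxm) k w
    · rw [neg_smul, natCast_zsmul]
      exact Sa_neg t (Sa_nsmul t (hx hxm) k) w

theorem exists_Q (P : ℤ[X]) (r M : ℤ) : ∃ Q : ℤ[X], Q.eval 0 = 0 ∧
    ∀ n : ℤ, P.eval (r + M * n) = P.eval r + M * Q.eval n := by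
  have h1 : ((C r + C M * X) - C r : ℤ[X]) ∣ P.comp (C r + C M * X) - P.comp (C r) := by
    have := Polynomial.sub_dvd_eval_sub (C r + C M * X) (C r) (P.map C)
    rwa [eval_map, eval_map] at this
  obtain ⟨Q, hQ⟩ := h1
  refine ⟨X * Q, by simp, fun n => ?_⟩
  have h2 := congrArg (eval n) hQ
  rw [add_sub_cancel_left, eval_sub, eval_comp, eval_comp, eval_mul, eval_mul, eval_add, eval_mul,
    eval_C, eval_C, eval_X] at h2
  rw [eval_mul, eval_X]
  linarith

theorem copr_tors (hW : Copr R W) {B : ℕ} (hB1 : 1 ≤ B) (hB : ∀ w : W, B • w = 0)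
    (t : Fin D → Rˣ) (P : Fin D → Fin m → ℤ[X]) (χ : Fin m → W) :
    ∃ q : ℕ, 1 ≤ q ∧ DichF (os t P χ) q := by
  classical
  obtain ⟨M, hM1, hM⟩ := exists_M W t
  refine ⟨M, hM1, fun r => ?_⟩
  -- the torsion-free quotient
  let G := (Fin D → ℤ) ⧸ Lam W t
  have hout : ∀ g : G, ((g.out : Fin D → ℤ) : G) = g := fun g => QuotientAddGroup.out_eq' g
  have key : ∀ a b : Fin D → ℤ, (a : G) = (b : G) → ∀ w : W, Sa W t (M • a) w = Sa W t (M • b) w := by
    intro a b hab w
    have h1 : -b + a ∈ Lam W t := QuotientAddGroup.eq.1 hab.symm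
    have h2 : M • a = M • b + M • (-b + a) := by
      rw [← smul_add, add_neg_cancel_left]
    rw [h2, Sa_add, hM _ h1]
  let σ : Act G W :=
    { ρ := fun g => Sa W t (M • g.out)
      zero := fun w => by
        have h1 := key (0 : G).out 0 (by rw [hout]; rfl) w
        rw [smul_zero, Sa_zero] at h1
        exact h1
      add := fun a b w => by
        have h1 := key (a + b).out (a.out + b.out) (by
          rw [hout]
          show a + b = ((a.out : Fin D → ℤ) : G) + ((b.out : Fin D → ℤ) : G)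
          rw [hout, hout]) w
        rw [smul_add, Sa_add] at h1
        exact h1 }
  have hσ : ∀ (a : Fin D → ℤ) (w : W), σ.ρ (a : G) w = Sa W t (M • a) w := fun a w =>
    key _ _ (hout _) w
  have hmemL : ∀ a : Fin D → ℤ, (a : G) = 0 ↔ a ∈ Lam W t := fun a => QuotientAddGroup.eq_zero_iff a
  have hsurj : ∀ g : G, ∃ a : Fin D → ℤ, (a : G) = g := fun g => ⟨g.out, hout g⟩
  have htf : ∀ (n : ℕ) (g : G), 1 ≤ n → n • g = 0 → g = 0 := by
    intro n g hn h0
    obtain ⟨a, rfl⟩ := hsurj g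
    have h1 : ((n • a : Fin D → ℤ) : G) = 0 := h0
    rw [hmemL] at h1 ⊢
    obtain ⟨e, he, h2⟩ := h1
    refine ⟨e * n, Nat.mul_pos he hn, fun w => ?_⟩
    rw [mul_smul]
    exact h2 w
  have hinj : ∀ (g : G) (w : W), g ≠ 0 → σ.ρ g w = w → w = 0 := by
    intro g w hg hw
    obtain ⟨a, rfl⟩ := hsurj g
    rw [hσ, Sa_apply] at hw
    rcases hW.dich (((Tp t (M • a) : Rˣ) : R) - 1) with h1 | h1
    · exfalso
      apply hg
      rw [hmemL]
      obtain ⟨e, he, h2⟩ := unip_order hB1 hB h1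
      refine ⟨e * M, Nat.mul_pos he hM1, fun w => ?_⟩
      rw [mul_smul, Sa_apply, Tp_smul, Units.val_pow_eq_pow_val]
      exact h2 w
    · apply h1
      rw [sub_smul, one_smul, hw, sub_self]
  -- the polynomials
  choose Q hQ0 hQ using fun i j => exists_Q (P i j) (r : ℤ) (M : ℤ)
  let v : Fin m → Z0 G := fun j => ⟨fun n => ∑ i, (Q i j).eval n • ((Pi.single i (1 : ℤ) : Fin D → ℤ) : G), by
    show ∑ i, (Q i j).eval 0 • ((Pi.single i (1 : ℤ) : Fin D → ℤ) : G) = 0
    exact sum_eq_zero fun i _ => by rw [hQ0, zero_smul]⟩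
  have hv : ∀ j n, (v j).1 n = ((fun i => (Q i j).eval n : Fin D → ℤ) : G) := by
    intro j n
    show ∑ i, (Q i j).eval n • ((Pi.single i (1 : ℤ) : Fin D → ℤ) : G) = _
    have h1 : (fun i => (Q i j).eval n : Fin D → ℤ) =
        ∑ i, (Q i j).eval n • (Pi.single i (1 : ℤ) : Fin D → ℤ) := by
      funext k
      rw [Finset.sum_apply, Finset.sum_eq_single k]
      · simp
      · intro b _ hb
        simp [Pi.single_apply, Ne.symm hb]
      · intro h
        exact absurd (Finset.mem_univ k) h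
    rw [h1]
    have h2 : (QuotientAddGroup.mk' (Lam W t)) (∑ i, (Q i j).eval n • (Pi.single i (1 : ℤ) : Fin D → ℤ))
      = ∑ i, (Q i j).eval n • (QuotientAddGroup.mk' (Lam W t)) (Pi.single i (1 : ℤ) : Fin D → ℤ) := by
      rw [map_sum]
      exact sum_congr rfl fun i _ => map_zsmul _ _ _
    exact h2.symm
  have hPD : ∃ d : ℕ, ∀ j, PD (d + 1) (v j).1 := by
    have h1 : ∀ j, ∃ d, ∀ b, d ≤ b → PD b (v j).1 := by
      intro j
      have h2 : (fun n : ℤ => ∑ i, (Q i j).eval n • ((Pi.single i (1 : ℤ) : Fin D → ℤ) : G)) ∈ PZ G :=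
        PZ_sum _ fun i _ => PZ_mk (IVP.poly (Q i j)) _
      obtain ⟨B, hB⟩ := PZ_diff h2
      exact ⟨B, fun b hb => hB b hb⟩
    choose d hd using h1
    refine ⟨univ.sup d, fun j => hd j _ ?_⟩
    exact (le_sup (mem_univ j)).trans (Nat.le_succ _)
  obtain ⟨d, hd⟩ := hPD
  let χ' : Fin m → W := fun j => Sa W t (fun i => (P i j).eval (r : ℤ)) (χ j)
  let c : Z0 G →₀ W := ∑ j, Finsupp.single (v j) (χ' j)
  have hFn : ∀ n : ℕ, Fn σ (n : ℤ) c = os t P χ ((r + M * n : ℕ) : ℤ) := by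
    intro n
    show Fn σ (n : ℤ) (∑ j, Finsupp.single (v j) (χ' j)) = _
    rw [map_sum, os]
    apply sum_congr rfl
    intro j _
    rw [Fn_single, hv, hσ, ← Sa_add]
    have h1 : (M • (fun i => (Q i j).eval (n : ℤ)) + fun i => (P i j).eval (r : ℤ) : Fin D → ℤ) =
        fun i => (P i j).eval ((r + M * n : ℕ) : ℤ) := by
      funext i
      show M • (Q i j).eval (n : ℤ) + (P i j).eval (r : ℤ) = (P i j).eval ((r + M * n : ℕ) : ℤ)
      push_cast
      rw [hQ i j n, nsmul_eq_mul]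
      ring
    rw [h1]
    rfl
  by_cases hconst : ∃ w : W, c = Finsupp.single 0 w
  · obtain ⟨w, hw⟩ := hconst
    have h1 : ∀ n : ℕ, os t P χ ((r + M * n : ℕ) : ℤ) = w := by
      intro n
      rw [← hFn, hw, Fn_single]
      exact σ.zero w
    left
    intro n
    rw [h1 n]
    have := h1 0
    rw [mul_zero, add_zero] at this
    exact this.symm
  · right
    obtain ⟨r₀, hr₀⟩ := red_all (G := G) d (m + 1)
    obtain ⟨K, hK, hz⟩ := zeros σ htf hinj r₀
    refine ⟨r₀, K, fun w N hN s hs hw => ?_⟩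
    have hsupp : (c - Finsupp.single 0 w).support ⊆ insert 0 (univ.image v) := by
      intro x hx
      rw [mem_insert, or_iff_not_imp_left]
      intro hx0
      rw [Finsupp.mem_support_iff, Finsupp.sub_apply, Finsupp.single_eq_of_ne hx0,
        sub_zero] at hx
      by_contra hcon
      apply hx
      show (∑ j, Finsupp.single (v j) (χ' j)) x = 0
      rw [Finsupp.finset_sum_apply]
      exact sum_eq_zero fun j _ => Finsupp.single_eq_of_ne fun h1 =>
        hcon (mem_image.2 ⟨j, mem_univ j, h1.symm⟩)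
    have hPD' : ∀ x ∈ (c - Finsupp.single 0 w).support, PD (d + 1) x.1 := by
      intro x hx
      rcases mem_insert.1 (hsupp hx) with rfl | h1
      · exact PD.zero _
      · obtain ⟨j, -, rfl⟩ := mem_image.1 h1
        exact hd j
    have hcard : (c - Finsupp.single 0 w).support.card ≤ m + 1 := by
      refine (card_le_card hsupp).trans ((card_insert_le _ _).trans ?_)
      have : (univ.image v).card ≤ m := by
        refine card_image_le.trans ?_
        rw [card_univ, Fintype.card_fin]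
      omega
    refine hz (c - Finsupp.single 0 w) (fun h0 => hconst ⟨w, sub_eq_zero.1 h0⟩)
      (fun x hx => ⟨_, hPD' x hx⟩) (hr₀ _ hPD' hcard) N hN s hs fun n hn => ?_
    rw [map_sub, hFn, Fn_single]
    have h1 : σ.ρ ((0 : Z0 G).1 (n : ℤ)) w = w := σ.zero w
    have h2 := hw n hn
    simp only at h2
    rw [h1, h2, sub_self]

end Pool.Agent.V5helper56.CD
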