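import Pool.Agent.V5helper56.CD.Red

/-!
# Zeros of orbit sums
-/

set_option autoImplicit false

noncomputable section

namespace Pool.Agent.V5helper56.CD

open Finset
open scoped Classical

variable {G W : Type*} [AddCommGroup G] [AddCommGroup W]

section

/-- an action of `G` on `W` by automorphisms -/
structure Act (G W : Type*) [AddCommGroup G] [AddCommGroup W] where
  ρ : G → W →+ W
  zero : ∀ w, ρ 0 w = w
  add : ∀ a b w, ρ (a + b) w = ρ a (ρ b w)

variable (σ : Act G W)

/-- the orbit sum `∑_v σ(v(n)) c(v)` -/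
def Fn (n : ℤ) : (Z0 G →₀ W) →+ W :=
  Finsupp.liftAddHom fun v => σ.ρ (v.1 n)

theorem Fn_single (n : ℤ) (v : Z0 G) (w : W) :
    Fn σ n (Finsupp.single v w) = σ.ρ (v.1 n) w := by
  rw [Fn, Finsupp.liftAddHom_apply_single]

theorem rho_inj {a : G} {w : W} (h : σ.ρ a w = 0) : w = 0 := by
  have h1 := σ.add (-a) a w
  rw [neg_add_cancel, σ.zero, h, map_zero] at h1
  exact h1

/-- the shifted system -/
def Sh (h : ℤ) : (Z0 G →₀ W) →+ (Z0 G →₀ W) :=
  Finsupp.liftAddHom fun v => (Finsupp.singleAddHom (sh h v)).comp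
    (σ.ρ (v.1 h))

theorem Sh_single (h : ℤ) (v : Z0 G) (w : W) :
    Sh σ h (Finsupp.single v w) = Finsupp.single (sh h v) (σ.ρ (v.1 h) w) := by
  rw [Sh, Finsupp.liftAddHom_apply_single]
  rfl

theorem Fn_Sh (n h : ℤ) (c : Z0 G →₀ W) : Fn σ n (Sh σ h c) = Fn σ (n + h) c := by
  have : (Fn σ n).comp (Sh σ h) = Fn σ (n + h) := by
    apply Finsupp.addHom_ext
    intro v w
    rw [AddMonoidHom.comp_apply, Sh_single, Fn_single, Fn_single, ← σ.add, sh_apply,
      sub_add_cancel]
  exact DFunLike.congr_fun this c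

theorem Sh_apply (h : ℤ) (c : Z0 G →₀ W) (v : Z0 G) :
    (Sh σ h c) (sh h v) = σ.ρ (v.1 h) (c v) := by
  have : (Finsupp.applyAddHom (sh h v)).comp (Sh σ h) =
      AddMonoidHom.comp (σ.ρ (v.1 h)) (Finsupp.applyAddHom v) := by
    apply Finsupp.addHom_ext
    intro v' w
    rw [AddMonoidHom.comp_apply, AddMonoidHom.comp_apply, Sh_single, Finsupp.applyAddHom_apply,
      Finsupp.applyAddHom_apply]
    by_cases e : v' = v
    · subst e
      rw [Finsupp.single_eq_same, Finsupp.single_eq_same]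
    · rw [Finsupp.single_eq_of_ne (fun h1 => e (sh_inj h h1.symm)),
        Finsupp.single_eq_of_ne (fun h1 => e h1.symm), map_zero]
  exact DFunLike.congr_fun this c

/-- the translated system -/
def Tr (a : Z0 G) : (Z0 G →₀ W) →+ (Z0 G →₀ W) :=
  Finsupp.liftAddHom fun v => Finsupp.singleAddHom (v - a)

theorem Tr_single (a v : Z0 G) (w : W) :
    Tr a (Finsupp.single v w) = Finsupp.single (v - a) w := by
  rw [Tr, Finsupp.liftAddHom_apply_single]
  rfl

theorem Fn_Tr (n : ℤ) (a : Z0 G) (c : Z0 G →₀ W) :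
    Fn σ n (Tr a c) = σ.ρ (-(a.1 n)) (Fn σ n c) := by
  have : (Fn σ n).comp (Tr a) =
      AddMonoidHom.comp (σ.ρ (-(a.1 n))) (Fn σ n) := by
    apply Finsupp.addHom_ext
    intro v w
    rw [AddMonoidHom.comp_apply, AddMonoidHom.comp_apply, Tr_single, Fn_single, Fn_single,
      ← σ.add]
    congr 2
    show v.1 n - a.1 n = -a.1 n + v.1 n
    abel
  exact DFunLike.congr_fun this c

theorem Tr_apply (a : Z0 G) (c : Z0 G →₀ W) (v : Z0 G) : (Tr a c) v = c (v + a) := by
  have : (Finsupp.applyAddHom v).comp (Tr (W := W) a) = Finsupp.applyAddHom (v + a) := by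
    apply Finsupp.addHom_ext
    intro v' w
    rw [AddMonoidHom.comp_apply, Tr_single, Finsupp.applyAddHom_apply,
      Finsupp.applyAddHom_apply]
    by_cases e : v' = v + a
    · subst e
      rw [add_sub_cancel_right, Finsupp.single_eq_same, Finsupp.single_eq_same]
    · rw [Finsupp.single_eq_of_ne (fun h1 => e (by rw [h1, sub_add_cancel])),
        Finsupp.single_eq_of_ne (fun h1 => e h1.symm)]
  exact DFunLike.congr_fun this c

variable (htf : ∀ (n : ℕ) (g : G), 1 ≤ n → n • g = 0 → g = 0)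
  (hinj : ∀ (g : G) (w : W), g ≠ 0 → σ.ρ g w = w → w = 0)

include htf hinj in
/-- a system fixed by a shift is a constant -/
theorem fixed_system {c : Z0 G →₀ W} (hc : ∀ v ∈ c.support, ∃ k, PD k v.1) {h : ℕ} (hh : 1 ≤ h)
    (hfix : Sh σ h c = c) {v : Z0 G} (hv : v ∈ c.support) : v = 0 := by
  have hmem : ∀ v ∈ c.support, sh (h : ℤ) v ∈ c.support := by
    intro v hv
    rw [Finsupp.mem_support_iff] at hv ⊢
    intro h0
    have h1 := Sh_apply σ h c v
    rw [hfix, h0] at h1
    exact hv (rho_inj σ h1.symm)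
  have hit : ∀ k : ℕ, (sh (h : ℤ))^[k] v ∈ c.support := by
    intro k
    induction k with
    | zero => exact hv
    | succ k ih =>
      rw [Function.iterate_succ_apply']
      exact hmem _ ih
  obtain ⟨k, l, hkl, e⟩ := Finite.exists_ne_map_eq_of_infinite
    (fun k : ℕ => (⟨(sh (h : ℤ))^[k] v, hit k⟩ : c.support))
  have e1 : sh (k * h : ℤ) v = sh (l * h : ℤ) v := by
    have := congrArg Subtype.val e
    simp only [sh_iter] at this
    exact this
  have hper : ∃ j : ℕ, 1 ≤ j ∧ sh ((j : ℕ) : ℤ) v = v := by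
    rcases lt_or_gt_of_ne hkl with hlt | hlt
    · refine ⟨(l - k) * h, Nat.mul_pos (by omega) hh, ?_⟩
      apply sh_inj (k * h : ℤ)
      rw [sh_sh, e1]
      congr 2
      rw [Nat.cast_mul, Nat.cast_sub hlt.le]
      ring
    · refine ⟨(k - l) * h, Nat.mul_pos (by omega) hh, ?_⟩
      apply sh_inj (l * h : ℤ)
      rw [sh_sh, ← e1]
      congr 2
      rw [Nat.cast_mul, Nat.cast_sub hlt.le]
      ring
  obtain ⟨j, hj, hjv⟩ := hper
  obtain ⟨k, hk⟩ := hc v hv
  have h2 := PD.fixed htf hj hjv hk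
  have h3 : sh (h : ℤ) v = v := sub_eq_zero.1 (PD.eq_zero (PD.sh_sub le_rfl h2 h))
  have h4 := Sh_apply σ h c v
  rw [hfix, h3] at h4
  by_contra hne
  have h5 : v.1 h ≠ 0 := by
    intro h6
    rw [PD.linear h2 h] at h6
    have h7 : v.1 1 = 0 := htf h _ hh (by rwa [natCast_zsmul] at h6)
    apply hne
    apply Subtype.ext
    funext n
    rw [PD.linear h2 n, h7, smul_zero]
    rfl
  exact (Finsupp.mem_support_iff.1 hv) (hinj _ _ h5 h4.symm)

theorem supp_step {c : Z0 G →₀ W} {a : Z0 G} (h : ℕ) :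
    (Sh σ h (Tr a c) - Tr a c).support ⊆ nxt c.support a h := by
  intro w hw
  rw [Finsupp.mem_support_iff, Finsupp.sub_apply] at hw
  set c₀ := Tr a c with hc₀
  have hv : ∀ v : Z0 G, c₀ v ≠ 0 → v + a ∈ c.support := by
    intro v hv
    rw [hc₀, Tr_apply] at hv
    exact Finsupp.mem_support_iff.2 hv
  have h0 : Sh σ h c₀ 0 = c₀ 0 := by
    have h1 := Sh_apply σ h c₀ 0
    rw [map_zero] at h1
    rw [h1]
    exact σ.zero _
  have hw0 : w ≠ 0 := by
    rintro rfl
    apply hw
    rw [h0, sub_self]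
  by_cases h1 : c₀ w = 0
  · rw [h1, sub_zero] at hw
    have h2 := Sh_apply σ h c₀ (sh (-(h : ℤ)) w)
    rw [sh_sh_neg] at h2
    rw [h2] at hw
    have h3 : c₀ (sh (-(h : ℤ)) w) ≠ 0 := fun h4 => hw (by rw [h4, map_zero])
    refine nxt_mem (hv _ h3) (fun h4 => hw0 ?_) (Or.inr ?_)
    · rw [add_eq_right] at h4
      rw [← sh_sh_neg (h : ℤ) w, h4, map_zero]
    · rw [add_sub_cancel_right, sh_sh_neg]
  · refine nxt_mem (hv _ h1) (fun h4 => hw0 (by rwa [add_eq_right] at h4)) (Or.inl ?_)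
    rw [add_sub_cancel_right]

end

/-- counting pairs by their differences -/
theorem sq_card_le (N : ℕ) (s : Finset ℕ) (hs : s ⊆ range N) (m : ℕ)
    (hm : ∀ h, 1 ≤ h → (s.filter fun n => n + h ∈ s).card ≤ m) :
    s.card ^ 2 ≤ N + 2 * N * m := by
  have h1 : s.card ≤ N := by
    have := card_le_card hs
    rwa [card_range] at this
  have hpairs : ((s ×ˢ s).filter fun p => p.1 < p.2).card ≤ N * m := by
    have h2 : ((s ×ˢ s).filter fun p => p.1 < p.2).card ≤
        ((range N).sigma fun h => if 1 ≤ h then s.filter fun n => n + h ∈ s else ∅).card := by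
      refine card_le_card_of_injOn (fun p => ⟨p.2 - p.1, p.1⟩) ?_ ?_
      · intro p hp
        rw [mem_coe, mem_filter, mem_product] at hp
        obtain ⟨⟨hp1, hp2⟩, hlt⟩ := hp
        have h3 : p.2 < N := mem_range.1 (hs hp2)
        rw [mem_coe, mem_sigma]
        refine ⟨mem_range.2 (by show p.2 - p.1 < N; omega), ?_⟩
        show p.1 ∈ if 1 ≤ p.2 - p.1 then s.filter fun n => n + (p.2 - p.1) ∈ s else ∅
        rw [if_pos (by omega), mem_filter]
        refine ⟨hp1, ?_⟩
        have : p.1 + (p.2 - p.1) = p.2 := by omega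
        rwa [this]
      · intro p hp q hq hpq
        rw [mem_coe, mem_filter] at hp hq
        simp only [Sigma.mk.injEq, heq_eq_eq] at hpq
        have h4 := hp.2
        have h5 := hq.2
        apply Prod.ext
        · exact hpq.2
        · omega
    refine h2.trans ?_
    rw [card_sigma]
    refine (sum_le_sum (g := fun _ => m) fun h _ => ?_).trans ?_
    · by_cases h3 : 1 ≤ h
      · rw [if_pos h3]
        exact hm h h3
      · rw [if_neg h3, card_empty]
        exact Nat.zero_le _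
    · rw [sum_const, card_range, smul_eq_mul]
  have hpairs' : ((s ×ˢ s).filter fun p => p.2 < p.1).card ≤ N * m := by
    refine le_trans (le_of_eq ?_) hpairs
    refine card_bij (fun p _ => p.swap) ?_ ?_ ?_
    · intro p hp
      rw [mem_filter, mem_product] at hp ⊢
      exact ⟨⟨hp.1.2, hp.1.1⟩, hp.2⟩
    · intro p _ q _ h
      exact Prod.swap_injective h
    · intro p hp
      rw [mem_filter, mem_product] at hp
      exact ⟨p.swap, mem_filter.2 ⟨mem_product.2 ⟨hp.1.2, hp.1.1⟩, hp.2⟩, Prod.swap_swap p⟩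
  have hdiag : ((s ×ˢ s).filter fun p => p.1 = p.2).card ≤ N := by
    refine le_trans ?_ h1
    refine card_le_card_of_injOn (fun p => p.1) ?_ ?_
    · intro p hp
      rw [mem_coe, mem_filter, mem_product] at hp
      exact hp.1.1
    · intro p hp q hq hpq
      rw [mem_coe, mem_filter] at hp hq
      exact Prod.ext hpq (by rw [← hp.2, ← hq.2]; exact hpq)
  have hcov : s ×ˢ s ⊆ ((s ×ˢ s).filter fun p => p.1 = p.2) ∪
      (((s ×ˢ s).filter fun p => p.1 < p.2) ∪ ((s ×ˢ s).filter fun p => p.2 < p.1)) := by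
    intro p hp
    rw [mem_union, mem_union, mem_filter, mem_filter, mem_filter]
    rcases lt_trichotomy p.1 p.2 with h | h | h
    · exact Or.inr (Or.inl ⟨hp, h⟩)
    · exact Or.inl ⟨hp, h⟩
    · exact Or.inr (Or.inr ⟨hp, h⟩)
  have h6 := card_le_card hcov
  have h7 := card_union_le ((s ×ˢ s).filter fun p => p.1 = p.2)
    (((s ×ˢ s).filter fun p => p.1 < p.2) ∪ ((s ×ˢ s).filter fun p => p.2 < p.1))
  have h8 := card_union_le ((s ×ˢ s).filter fun p => p.1 < p.2)
    ((s ×ˢ s).filter fun p => p.2 < p.1)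
  rw [card_product] at h6
  have : s.card ^ 2 = s.card * s.card := sq _
  have h9 : 2 * N * m = N * m + N * m := by ring
  omega

theorem pow_step {r K N x m : ℕ} (hK : 1 ≤ K) (hN : 1 ≤ N) (hx : x ^ 2 ≤ N + 2 * N * m)
    (hm : m ^ (2 ^ r) ≤ K * N ^ (2 ^ r - 1)) :
    x ^ (2 ^ (r + 1)) ≤ 3 ^ (2 ^ r) * K * N ^ (2 ^ (r + 1) - 1) := by
  have h2r : 1 ≤ 2 ^ r := Nat.one_le_two_pow
  have h1 : x ^ 2 ≤ 3 * N * max 1 m := by
    refine hx.trans ?_
    have h2 : N ≤ N * max 1 m := Nat.le_mul_of_pos_right _ (by omega)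
    have h3 : 2 * N * m ≤ 2 * N * max 1 m := Nat.mul_le_mul_left _ (le_max_right _ _)
    have h4 : 3 * N * max 1 m = N * max 1 m + 2 * N * max 1 m := by ring
    omega
  have h5 : (max 1 m) ^ (2 ^ r) ≤ K * N ^ (2 ^ r - 1) := by
    rcases le_total 1 m with h | h
    · rw [max_eq_right h]
      exact hm
    · rw [max_eq_left h, one_pow]
      exact Nat.mul_pos hK (Nat.pow_pos hN)
  calc x ^ (2 ^ (r + 1)) = (x ^ 2) ^ (2 ^ r) := by rw [← pow_mul, pow_succ 2 r, mul_comm]
    _ ≤ (3 * N * max 1 m) ^ (2 ^ r) := Nat.pow_le_pow_left h1 _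
    _ = 3 ^ (2 ^ r) * N ^ (2 ^ r) * (max 1 m) ^ (2 ^ r) := by rw [mul_pow, mul_pow]
    _ ≤ 3 ^ (2 ^ r) * N ^ (2 ^ r) * (K * N ^ (2 ^ r - 1)) := Nat.mul_le_mul_left _ h5
    _ = 3 ^ (2 ^ r) * K * (N ^ (2 ^ r) * N ^ (2 ^ r - 1)) := by ring
    _ = 3 ^ (2 ^ r) * K * N ^ (2 ^ (r + 1) - 1) := by
      rw [← pow_add]
      congr 2
      rw [pow_succ 2 r]
      omega

/-- **The zeros of an orbit sum.** -/
theorem zeros (σ : Act G W)
    (htf : ∀ (n : ℕ) (g : G), 1 ≤ n → n • g = 0 → g = 0)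
    (hinj : ∀ (g : G) (w : W), g ≠ 0 → σ.ρ g w = w → w = 0) :
    ∀ r : ℕ, ∃ K : ℕ, 1 ≤ K ∧ ∀ c : Z0 G →₀ W, c ≠ 0 → (∀ v ∈ c.support, ∃ k, PD k v.1) →
      Red r c.support → ∀ N : ℕ, 1 ≤ N → ∀ s ⊆ range N, (∀ n ∈ s, Fn σ (n : ℤ) c = 0) →
        s.card ^ (2 ^ r) ≤ K * N ^ (2 ^ r - 1) := by
  -- single maps have no zeros
  have hone : ∀ c : Z0 G →₀ W, c ≠ 0 → c.support.card ≤ 1 → ∀ s : Finset ℕ,
      (∀ n ∈ s, Fn σ (n : ℤ) c = 0) → s.card = 0 := by
    intro c hc h1 s hs
    obtain ⟨v, w, rfl⟩ := Finsupp.card_support_le_one'.1 h1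
    rw [card_eq_zero, eq_empty_iff_forall_notMem]
    intro n hn
    have h2 := hs n hn
    rw [Fn_single] at h2
    apply hc
    rw [rho_inj σ h2, Finsupp.single_zero]
  intro r
  induction r with
  | zero =>
    refine ⟨1, le_rfl, fun c hc _ hr N hN s _ hz => ?_⟩
    rw [hone c hc hr s hz]
    simp
  | succ r ih =>
    obtain ⟨K, hK, ih⟩ := ih
    refine ⟨3 ^ (2 ^ r) * K, Nat.mul_pos (by positivity) hK, fun c hc hpd hr N hN s hs hz => ?_⟩
    by_cases hone' : c.support.card ≤ 1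
    · rw [hone c hc hone' s hz, zero_pow (by positivity)]
      exact Nat.zero_le _
    rcases hr with h | ⟨a, ha, hr⟩
    · exact absurd h hone'
    obtain ⟨v, hv, hva⟩ := exists_mem_ne (not_le.1 hone') a
    set c₀ := Tr a c with hc₀
    have hpd₀ : ∀ v ∈ c₀.support, ∃ k, PD k v.1 := by
      intro v hv
      rw [Finsupp.mem_support_iff, hc₀, Tr_apply] at hv
      obtain ⟨k, hk⟩ := hpd _ (Finsupp.mem_support_iff.2 hv)
      obtain ⟨l, hl⟩ := hpd a ha
      refine ⟨max k l, ?_⟩
      have h1 := (hk.mono (le_max_left k l)).sub (hl.mono (le_max_right k l))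
      have h2 : (v + a).1 - a.1 = v.1 := by
        funext n
        show v.1 n + a.1 n - a.1 n = v.1 n
        abel
      rwa [h2] at h1
    have hz₀ : ∀ n ∈ s, Fn σ (n : ℤ) c₀ = 0 := by
      intro n hn
      rw [hc₀, Fn_Tr, hz n hn, map_zero]
    refine pow_step (m := (Finset.Ico 1 N).sup fun h => (s.filter fun n => n + h ∈ s).card) hK hN
      (sq_card_le N s hs _ fun h hh => ?_) ?_
    · by_cases hhN : h < N
      · exact le_sup (f := fun h => (s.filter fun n => n + h ∈ s).card) (mem_Ico.2 ⟨hh, hhN⟩)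
      · have : s.filter (fun n => n + h ∈ s) = ∅ := by
          rw [filter_eq_empty_iff]
          intro n _ hn
          have := mem_range.1 (hs hn)
          omega
        rw [this, card_empty]
        exact Nat.zero_le _
    · rcases (Finset.Ico 1 N).eq_empty_or_nonempty with h0 | hne
      · rw [h0, sup_empty]
        rw [Nat.bot_eq_zero, zero_pow (by positivity)]
        exact Nat.zero_le _
      · obtain ⟨h, hh, he⟩ := exists_mem_eq_sup _ hne
          fun h => (s.filter fun n => n + h ∈ s).card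
        rw [he]
        have hh1 := (mem_Ico.1 hh).1
        refine ih (Sh σ h c₀ - c₀) ?_ ?_ (hr h hh1 _ (supp_step σ h)) N hN _
          ((filter_subset _ _).trans hs) ?_
        · intro h1
          have h2 : v - a ∈ c₀.support := by
            rw [Finsupp.mem_support_iff, hc₀, Tr_apply, sub_add_cancel]
            exact Finsupp.mem_support_iff.1 hv
          have h3 := fixed_system σ htf hinj hpd₀ hh1 (sub_eq_zero.1 h1) h2
          exact hva (sub_eq_zero.1 h3)
        · intro w hw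
          obtain ⟨v', hv', -, hw'⟩ := mem_nxt (supp_step σ h hw)
          obtain ⟨k, hk⟩ := hpd v' hv'
          obtain ⟨l, hl⟩ := hpd a ha
          have h4 : PD (max k l) (v' - a).1 :=
            (hk.mono (le_max_left k l)).sub (hl.mono (le_max_right k l))
          rcases hw' with rfl | rfl
          · exact ⟨_, h4⟩
          · exact ⟨_, h4.succ.sh h⟩
        · intro n hn
          rw [mem_filter] at hn
          rw [map_sub, Fn_Sh, hz₀ n hn.1, sub_zero]
          have := hz₀ _ hn.2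
          push_cast at this
          exact this

end Pool.Agent.V5helper56.CD
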